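import Pool.Graph.R_seed8.H670R2.PspDefs

/-!
# The maximum k-peripatetic salesman problem under a polyhedral gauge: statement
-/

set_option autoImplicit false

namespace Pool.Agent.KS6_7.KP

open Pool.Agent.NPC Pool.Agent.H670R2.PSP

/-- `τs` are `k` pairwise edge-disjoint round-trips through `n` points: `k` cyclic orders of the
indices `0, …, n - 1` (with `n ≥ 3`), no two of them with a common edge. -/
def FeasibleK (k n : ℕ) (τs : List (List ℕ)) : Prop :=
  3 ≤ n ∧ τs.length = k ∧ (∀ τ ∈ τs, τ.Perm (List.range n)) ∧
    τs.Pairwise fun τ σ => ∀ e ∈ edges τ, e ∉ edges σ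

/-- The total length of the round-trips `τs` through `P`, where the step from the point `x` to the
point `y` has length `d (x - y)`. -/
noncomputable def lenK {s : ℕ} (d : (Fin s → ℝ) → ℝ) (P : List (Fin s → ℚ)) (τs : List (List ℕ)) : ℝ :=
  (τs.map fun τ => ((steps τ).map fun e => d (pt P e.1 - pt P e.2)).sum).sum

/-- `o` is a correct answer for the instance `P` of Max-k-PSP under `d`: `none` if there are no `k`
pairwise edge-disjoint round-trips, and otherwise `k` such round-trips of maximum total length. -/
def SolvesK {s : ℕ} (k : ℕ) (d : (Fin s → ℝ) → ℝ) (P : List (Fin s → ℚ)) :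
    Option (List (List ℕ)) → Prop
  | none => ∀ τs, ¬ FeasibleK k P.length τs
  | some o => FeasibleK k P.length o ∧ ∀ τs, FeasibleK k P.length τs → lenK d P τs ≤ lenK d P o

/-- Max-k-PSP under `d` is solvable in polynomial time: some polynomial-time algorithm computes from
the code of every list `P` of rational points a correct answer. -/
def PolyTimeSolvableK {s : ℕ} (k : ℕ) (d : (Fin s → ℝ) → ℝ) : Prop :=
  ∃ F : List Bool → List Bool, PolyTime F ∧ ∀ P : List (Fin s → ℚ),
    ∃ o : Option (List (List ℕ)), F (bits (P.map List.ofFn)) = bits o ∧ SolvesK k d P o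

end Pool.Agent.KS6_7.KP
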