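import Pool.Agent.KS6_7.KP.Table
import Pool.Agent.KS6_7.KP.Defs
import Pool.Graph.R_seed8.H670R2.PspAlg

/-!
# The algorithm for the maximum `(q + 1)`-peripatetic salesman problem
-/

set_option autoImplicit false

namespace Pool.Agent.KS6_7.KP

open Pool.Agent.NPC Pool.Agent.NPC.H670R2
open Pool.Agent.H670R2.PSP (IsPolyhedralBall pt steps edges len PolyTimeSigns Lb sg bar bar_bar bar_ne prodL mem_prodL
  nm cn cn_cons mem_nm nodup_nm nm_map_fst nm_length nm_perm bds lf rt adj adj_iff edge Closed perm_of_all rev)

variable {m s q : ℕ}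

/-- coefficient of a row in a type -/
def cf (j : Fin m) (t : TyK q m) : ℤ := ∑ i, (sg j ((t i).1, false) + sg j ((t i).2, true))

/-- coefficient of an entry of the matrix in the weight of an assignment -/
def wc (j : Fin m) (k : ℕ) (a : List (TyK q m)) (Z : List (List ℤ)) : ℤ :=
  (List.zipWith (fun t z => cf j t * z.getD k 0) a Z).sum

/-- difference of weights -/
def dif (s : ℕ) (a a' : List (TyK q m)) (Z : List (List ℤ)) : List (List ℤ) :=
  List.ofFn fun j : Fin m => List.ofFn fun k : Fin s => wc j k a Z - wc j k a' Z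

/-- real weight -/
noncomputable def rwt (A : Fin m → Fin s → ℝ) (a : List (TyK q m)) (Z : List (List ℤ)) : ℝ :=
  ∑ j, ∑ k : Fin s, A j k * (wc j k a Z : ℝ)

theorem dif_iff {A : Fin m → Fin s → ℝ} {σ : List (List ℤ) → Bool}
    (hσ : ∀ z : Fin m → Fin s → ℤ, σ (List.ofFn fun i => List.ofFn (z i)) = true ↔
      0 < ∑ i, ∑ k, A i k * (z i k : ℝ)) (a a' : List (TyK q m)) (Z : List (List ℤ)) :
    σ (dif s a a' Z) = true ↔ rwt A a' Z < rwt A a Z := by
  have := hσ fun j k => wc j k a Z - wc j k a' Z
  unfold dif
  rw [this]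
  have e : ∑ i, ∑ k : Fin s, A i k * ((wc i k a Z - wc i k a' Z : ℤ) : ℝ) =
      rwt A a Z - rwt A a' Z := by
    unfold rwt
    rw [← Finset.sum_sub_distrib]
    refine Finset.sum_congr rfl fun i _ => ?_
    rw [← Finset.sum_sub_distrib]
    refine Finset.sum_congr rfl fun k _ => ?_
    push_cast
    ring
  rw [e, sub_pos]

theorem wc_cons (j : Fin m) (k : ℕ) (t : TyK q m) (a : List (TyK q m)) (z : List ℤ)
    (Z : List (List ℤ)) : wc j k (t :: a) (z :: Z) = cf j t * z.getD k 0 + wc j k a Z := by
  simp [wc]

theorem rwt_cons (A : Fin m → Fin s → ℝ) (t : TyK q m) (a : List (TyK q m)) (z : List ℤ)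
    (Z : List (List ℤ)) : rwt A (t :: a) (z :: Z) =
      (∑ j, ∑ k : Fin s, A j k * ((cf j t : ℝ) * (z.getD k 0 : ℝ))) + rwt A a Z := by
  unfold rwt
  rw [← Finset.sum_add_distrib]
  refine Finset.sum_congr rfl fun i _ => ?_
  rw [← Finset.sum_add_distrib]
  refine Finset.sum_congr rfl fun k _ => ?_
  rw [wc_cons]
  push_cast
  ring

/-- all types -/
noncomputable def tys (q m : ℕ) : List (TyK q m) := (Finset.univ : Finset (TyK q m)).toList

theorem mem_tys (t : TyK q m) : t ∈ tys q m := by simp [tys]

/-- the count vector -/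
noncomputable def key (a : List (TyK q m)) : List ℕ := (tys q m).map fun t => cn t a

theorem key_eq {a a' : List (TyK q m)} : key a = key a' ↔ ∀ t, cn t a = cn t a' := by
  unfold key
  rw [List.map_inj_left]
  exact ⟨fun h t => h t (mem_tys t), fun h t _ => h t⟩

/-- the keys for `n` points -/
noncomputable def keys (q m n : ℕ) : List (List ℕ) := prodL (tys q m).length (List.range (n + 1))

theorem key_mem {a : List (TyK q m)} {n : ℕ} (h : a.length ≤ n) : key a ∈ keys q m n := by
  refine mem_prodL (by simp [key]) ?_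
  intro x hx
  unfold key at hx
  rw [List.mem_map] at hx
  obtain ⟨t, -, rfl⟩ := hx
  rw [List.mem_range]
  have : cn t a ≤ a.length := List.countP_le_length
  omega

/-- one step of the dynamic program -/
noncomputable def dpStep (σ : List (List ℤ) → Bool) (s : ℕ) (K : List (List ℕ)) (z : List ℤ)
    (st : List (List ℤ) × List (List (TyK q m))) :
    List (List ℤ) × List (List (TyK q m)) :=
  (z :: st.1, K.flatMap fun c => (best (fun a a' => σ (dif s a a' (z :: st.1)))
    ((st.2.flatMap fun a => (tys q m).map fun t => t :: a).filter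
      fun a => decide (key a = c))).toList)

/-- the dynamic program -/
noncomputable def dp (q m : ℕ) (σ : List (List ℤ) → Bool) (s : ℕ) (K : List (List ℕ))
    (Z : List (List ℤ)) : List (List ℤ) × List (List (TyK q m)) :=
  Z.foldr (dpStep σ s K) ([], [[]])

theorem dp_fst (σ : List (List ℤ) → Bool) (K : List (List ℕ)) (Z : List (List ℤ)) :
    (dp q m σ s K Z).1 = Z := by
  induction Z with
  | nil => rfl
  | cons z Z ih =>
      change z :: (dp q m σ s K Z).1 = _
      rw [ih]

theorem dp_spec {A : Fin m → Fin s → ℝ} {σ : List (List ℤ) → Bool}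
    (hσ : ∀ z : Fin m → Fin s → ℤ, σ (List.ofFn fun i => List.ofFn (z i)) = true ↔
      0 < ∑ i, ∑ k, A i k * (z i k : ℝ)) (n : ℕ) (Z : List (List ℤ)) (hZ : Z.length ≤ n)
    (a : List (TyK q m)) (ha : a.length = Z.length) :
    ∃ a' ∈ (dp q m σ s (keys q m n) Z).2, (∀ t, cn t a' = cn t a) ∧ rwt A a Z ≤ rwt A a' Z := by
  induction Z generalizing a with
  | nil =>
      have : a = [] := List.length_eq_zero_iff.1 ha
      subst this
      exact ⟨[], by simp [dp], fun t => rfl, le_rfl⟩
  | cons z Z ih =>
      cases a with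
      | nil => simp at ha
      | cons t a =>
          obtain ⟨a', h1, h2, h3⟩ := ih (by simp at hZ; omega) a (by simpa using ha)
          have h4 : ∀ u, cn u (t :: a') = cn u (t :: a) := by
            intro u
            rw [cn_cons, cn_cons, h2]
          have h5 : rwt A (t :: a) (z :: Z) ≤ rwt A (t :: a') (z :: Z) := by
            rw [rwt_cons, rwt_cons]
            linarith
          set C := ((dp q m σ s (keys q m n) Z).2.flatMap fun a => (tys q m).map fun t => t :: a).filter
            (fun b => decide (key b = key (t :: a))) with hC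
          have h6 : t :: a' ∈ C := by
            rw [hC, List.mem_filter, decide_eq_true_iff]
            exact ⟨List.mem_flatMap.2 ⟨a', h1, List.mem_map.2 ⟨t, mem_tys t, rfl⟩⟩,
              key_eq.2 h4⟩
          obtain ⟨b, hb⟩ := best_ne_none (lt := fun a a' => σ (dif s a a' (z :: Z)))
            (List.ne_nil_of_mem h6)
          have hbm := best_mem C b hb
          have hbs := best_spec (γ := ℝ) (fun x => -rwt A x (z :: Z)) C (by
            intro x _ y _
            rw [dif_iff hσ, neg_lt_neg_iff]) b hb _ h6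
          refine ⟨b, ?_, ?_, by linarith⟩
          · change b ∈ (keys q m n).flatMap fun c =>
              (best (fun a a' => σ (dif s a a' (z :: (dp q m σ s (keys q m n) Z).1)))
                (((dp q m σ s (keys q m n) Z).2.flatMap fun a => (tys q m).map fun t => t :: a).filter
                  fun a => decide (key a = c))).toList
            rw [dp_fst, List.mem_flatMap]
            refine ⟨key (t :: a), key_mem ?_, ?_⟩
            · rw [ha]
              exact hZ
            · rw [← hC, hb]
              simp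
          · rw [hC, List.mem_filter, decide_eq_true_iff] at hbm
            exact key_eq.1 hbm.2

/-- test of a realisation -/
def realB (n : ℕ) (a : List (TyK q m)) (M : Trs q m) : Bool :=
  (decide (3 ≤ n) && decide (a.length = n)) &&
  (((List.finRange (q + 1)).all fun i => decide ((M i).length = n) &&
    (((nm a).all (fun v => (M i).any fun e => decide (e.1 = v))) &&
      (bds (M i)).all (fun d => decide (lf (pK i) d.2 = bar (rt (pK i) d.1))))) &&
  ((List.finRange (q + 1)).all fun i => (List.finRange (q + 1)).all fun j =>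
    decide (i = j) || (bds (M i)).all fun d => !(adj (M j) d.1.1 d.2.1)))

theorem realB_iff {n : ℕ} {a : List (TyK q m)} {M : Trs q m} :
    realB n a M = true ↔ 3 ≤ n ∧ a.length = n ∧ RealnK pK bar (nm a) M := by
  have e : RealnK pK bar (nm a) M ↔
      (∀ i, (M i).length = a.length ∧ ∀ v ∈ nm a, ∃ e ∈ M i, e.1 = v) ∧
      (∀ i, ∀ d ∈ bds (M i), lf (pK i) d.2 = bar (rt (pK i) d.1)) ∧
      ∀ i j, i ≠ j → ∀ d ∈ bds (M i), adj (M j) d.1.1 d.2.1 = false := by
    unfold RealnK Closed
    have h1 : (∀ i, ((M i).map Prod.fst).Perm (nm a)) ↔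
        (∀ i, (M i).length = a.length ∧ ∀ v ∈ nm a, ∃ e ∈ M i, e.1 = v) :=
      forall_congr' fun i => by rw [perm_of_all (nodup_nm a), nm_length]
    have h2 : (∀ i j, i ≠ j → ∀ d ∈ bds (M i), ∀ d' ∈ bds (M j), edge d ≠ edge d') ↔
        ∀ i j, i ≠ j → ∀ d ∈ bds (M i), adj (M j) d.1.1 d.2.1 = false := by
      refine forall₃_congr fun i j _ => forall₂_congr fun d _ => ?_
      rw [← Bool.not_eq_true, adj_iff]
      push Not
      exact forall₂_congr fun d' _ => ⟨fun h h' => h h'.symm, fun h h' => h h'.symm⟩
    rw [h1, h2]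
  rw [e]
  unfold realB
  simp only [Bool.and_eq_true, decide_eq_true_eq, List.all_eq_true, List.any_eq_true,
    Bool.not_eq_true', Bool.or_eq_true, List.mem_finRange, forall_true_left]
  constructor
  · rintro ⟨⟨h1, h2⟩, h3, h4⟩
    refine ⟨h1, h2, fun i => ⟨by have := (h3 i).1; omega, (h3 i).2.1⟩, fun i => (h3 i).2.2, ?_⟩
    intro i j hij
    rcases h4 i j with h | h
    · exact absurd h hij
    · exact h
  · rintro ⟨h1, h2, h3, h4, h5⟩
    refine ⟨⟨h1, h2⟩, fun i => ⟨by have := (h3 i).1; omega, (h3 i).2, h4 i⟩, ?_⟩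
    intro i j
    by_cases hij : i = j
    · exact Or.inl hij
    · exact Or.inr (h5 i j hij)

/-- table of realisations -/
abbrev Tb (q m : ℕ) := List (Trs q m)

/-- the candidate solutions -/
noncomputable def outs (σ : List (List ℤ) → Bool) (s : ℕ) (tb : Tb q m) (Z : List (List ℤ)) :
    List (List (TyK q m) × Trs q m) :=
  ((dp q m σ s (keys q m Z.length) Z).2.flatMap fun a => tb.map fun O => (a, attemptK O a)).filter
    fun x => realB Z.length x.1 x.2

/-- a closed labelled tour, traversed in the positive direction -/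
def nrmM {V : Type} (M : List (V × Bool)) : List (V × Bool) := if M.any (fun e => e.2) then rev M else M

/-- the round-trip given by a labelled tour -/
noncomputable def toTour (a : List (TyK q m)) (M : List ((TyK q m × ℕ) × Bool)) : List ℕ :=
  (nrmM M).map fun e => index (nm a) e.1

/-- the algorithm on integer points -/
noncomputable def algZ (σ : List (List ℤ) → Bool) (s : ℕ) (tb : Tb q m) (Z : List (List ℤ)) :
    Option (List (List ℕ)) :=
  (best (fun x y => σ (dif s x.1 y.1 Z)) (outs σ s tb Z)).map fun x =>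
    List.ofFn fun i => toTour x.1 (x.2 i)

end Pool.Agent.KS6_7.KP
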