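import Pool.Graph.R_seed8.H670R2.PspReal

/-!
# Exchanging edges of a frequent class, for several other tours

Generalisation of the exchange argument of the library (`Pool.Graph.R_seed8.H670R2.PspFix`, `PspFix2`)
to conflict graphs of degree `g`.
-/

set_option autoImplicit false

namespace Pool.Agent.KS6_7.KP

open Pool.Agent.H670R2.PSP

variable {E V L : Type}

section

variable [DecidableEq L] {p : V → L × L} {bar : L → L} {g : ℕ}

theorem exchange_twoG {P : (V × Bool) × (V × Bool) → Prop}
    (hPsw : ∀ d, P d → P (sw d)) (hPc : ∀ d, P d → lf p d.2 = bar (rt p d.1))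
    {G : V → V → Bool} (hG : ∀ u v, G u v = G v u) {a : L}
    (hPa : ∀ d, lf p d.2 = bar (rt p d.1) → (rt p d.1 = a ∨ rt p d.1 = bar a) → P d)
    {M : List (V × Bool)} (hM : ∀ d ∈ bds M, P d) {x y : V × Bool} (hxy : lk M M = [(y, x)])
    (ha : rt p y = a) (hconf : G y.1 x.1 = true)
    (hdeg : ∀ u, M.countP (fun e => G u e.1) ≤ g)
    (hcount : 2 * g + 1 ≤ (lin M).countP (fun d => decide (rt p d.1 = bar a))) :
    ∃ A B, M = A ++ B ∧ Good P G M (rev A ++ B) := by
  obtain ⟨d, hd, h1, h2, h3⟩ := exists_of_countP (l := lin M)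
    (q := fun d => decide (rt p d.1 = bar a)) (b₁ := fun d => G x.1 d.2.1)
    (b₂ := fun d => G y.1 d.1.1) (by
      have e1 := countP_snd_le (f := fun v => G x.1 v) (hdeg x.1)
      have e2 := countP_fst_le (f := fun v => G y.1 v) (hdeg y.1)
      omega)
  rw [decide_eq_true_iff] at h1
  obtain ⟨A, B, rfl, hA, hB, hAB⟩ := exists_split hd
  have hBA : lk B A = [(y, x)] := by rw [← hxy, lk_append_left hB, lk_append_right hA]
  have b1 := bds_append hA hB
  have b2 := bds_append (rev_ne_nil hA) hB
  have hdc : lf p d.2 = bar (rt p d.1) := hPc d (hM d (by rw [b1, hAB]; simp))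
  have hyx : lf p x = bar (rt p y) := hPc (y, x) (hM (y, x) (by rw [b1, hBA]; simp))
  obtain ⟨q1, q2⟩ := lk_eq_iff.1 hAB
  obtain ⟨q3, q4⟩ := lk_eq_iff.1 hBA
  have l1 : lk (rev A) B = [(flip x, d.2)] := by
    rw [lk_eq_iff]
    refine ⟨?_, q2⟩
    unfold rev
    rw [List.getLast?_reverse, List.head?_map, q4]
    rfl
  have l2 : lk B (rev A) = [(y, flip d.1)] := by
    rw [lk_eq_iff]
    refine ⟨q3, ?_⟩
    unfold rev
    rw [List.head?_reverse, List.getLast?_map, q1]
    rfl
  rw [l1, l2, lin_rev] at b2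
  have n1 : G (flip x, d.2).1.1 (flip x, d.2).2.1 = false := h2
  have n2 : G (y, flip d.1).1.1 (y, flip d.1).2.1 = false := h3
  refine ⟨A, B, rfl, ?_, ?_, ?_⟩
  · intro e he
    rw [b2] at he
    simp only [List.mem_append, List.mem_reverse, List.mem_map, List.mem_singleton] at he
    rcases he with ((⟨e', he', rfl⟩ | rfl) | he) | rfl
    · exact hPsw _ (hM _ (by rw [b1]; simp [he']))
    · refine hPa _ ?_ (Or.inr ?_)
      · simp only [rt_flip]
        rw [hdc, h1, hyx, ha]
      · simp only [rt_flip]
        rw [hyx, ha]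
    · exact hM _ (by rw [b1]; simp [he])
    · refine hPa _ ?_ (Or.inl ha)
      simp only [lf_flip]
      rw [h1, ha]
  · rw [b1, b2, hAB, hBA]
    simp only [conf_append]
    have e1 : conf G ((lin A).map sw).reverse = conf G (lin A) := by
      rw [← conf_sw hG (lin A)]
      exact (List.reverse_perm _).countP_eq _
    have e2 : conf G [(flip x, d.2)] = 0 := by
      unfold conf
      rw [List.countP_singleton, n1]
      rfl
    have e3 : conf G [(y, flip d.1)] = 0 := by
      unfold conf
      rw [List.countP_singleton, n2]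
      rfl
    have e4 : conf G [(y, x)] = 1 := by
      unfold conf
      rw [List.countP_singleton]
      simp [hconf]
    omega
  · intro e he hGe
    rw [b2] at he
    simp only [List.mem_append, List.mem_reverse, List.mem_map, List.mem_singleton] at he
    rcases he with ((⟨e', he', rfl⟩ | rfl) | he) | rfl
    · exact ⟨e', by rw [b1]; simp [he'], Or.inr rfl⟩
    · rw [n1] at hGe
      exact absurd hGe (by simp)
    · exact ⟨e, by rw [b1]; simp [he], Or.inl rfl⟩
    · rw [n2] at hGe
      exact absurd hGe (by simp)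

theorem exchange_threeG {P : (V × Bool) × (V × Bool) → Prop}
    (hPc : ∀ d, P d → lf p d.2 = bar (rt p d.1))
    {G : V → V → Bool} (hG : ∀ u v, G u v = G v u) {a : L}
    (hPa : ∀ d, lf p d.2 = bar (rt p d.1) → (rt p d.1 = a ∨ rt p d.1 = bar a) → P d)
    {M : List (V × Bool)} (hM : ∀ d ∈ bds M, P d) {x y : V × Bool} (hxy : lk M M = [(y, x)])
    (ha : rt p y = a) (hconf : G y.1 x.1 = true)
    (hdeg : ∀ u, M.countP (fun e => G u e.1) ≤ g)
    (hcount : 3 * g + 2 ≤ (lin M).countP (fun d => decide (rt p d.1 = a))) :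
    ∃ A B C, M = A ++ (B ++ C) ∧ Good P G M (A ++ (C ++ B)) := by
  obtain ⟨A, R, d, rfl, hA, hR, hAR, hd, hfirst⟩ := exists_first_split (M := M)
    (fun d => decide (rt p d.1 = a) && !(G y.1 d.2.1)) (by
      obtain ⟨d, h1, h2, h3⟩ := exists_of_countP₁ (l := lin M)
        (q := fun d => decide (rt p d.1 = a)) (b₁ := fun d => G y.1 d.2.1) (by
          have e1 := countP_snd_le (f := fun v => G y.1 v) (hdeg y.1)
          omega)
      exact ⟨d, h1, by rw [h2, h3]; rfl⟩)
  simp only [Bool.and_eq_true, decide_eq_true_eq, Bool.not_eq_true'] at hd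
  have hdegA : ∀ u, A.countP (fun e => G u e.1) ≤ g := fun u =>
    le_trans (by rw [List.countP_append]; omega) (hdeg u)
  have hdegR : ∀ u, R.countP (fun e => G u e.1) ≤ g := fun u =>
    le_trans (by rw [List.countP_append]; omega) (hdeg u)
  have c1 : (lin A).countP (fun d => decide (rt p d.1 = a)) ≤ g := by
    refine le_trans (List.countP_mono_left ?_)
      (countP_snd_le (f := fun v => G y.1 v) (hdegA y.1))
    intro d' hd' h
    have := hfirst d' hd'
    simp only [Bool.and_eq_false_iff, decide_eq_false_iff_not, Bool.not_eq_false'] at this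
    rcases this with h' | h'
    · rw [decide_eq_true_iff] at h
      exact absurd h h'
    · exact h'
  have c2 : 2 * g + 1 ≤ (lin R).countP (fun d => decide (rt p d.1 = a)) := by
    rw [lin_append, hAR, List.countP_append, List.countP_append] at hcount
    have : [d].countP (fun d => decide (rt p d.1 = a)) ≤ 1 := List.countP_le_length
    omega
  obtain ⟨d', hd'm, h1, h2, h3⟩ := exists_of_countP (l := lin R)
    (q := fun d => decide (rt p d.1 = a)) (b₁ := fun d' => G x.1 d'.1.1)
    (b₂ := fun d' => G d.1.1 d'.2.1) (by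
      have e1 := countP_fst_le (f := fun v => G x.1 v) (hdegR x.1)
      have e2 := countP_snd_le (f := fun v => G d.1.1 v) (hdegR d.1.1)
      omega)
  rw [decide_eq_true_iff] at h1
  obtain ⟨B, C, rfl, hB, hC, hBC⟩ := exists_split hd'm
  have hCA : lk C A = [(y, x)] := by
    rw [← hxy, lk_append_left (by simp [hC]), lk_append_left hC, lk_append_right hA]
  have b1 : bds (A ++ (B ++ C)) = lin A ++ [d] ++ (lin B ++ [d'] ++ lin C) ++ [(y, x)] := by
    rw [bds_append hA (by simp [hB]), lin_append B C, hBC, lk_append_left hC, hCA, hAR]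
  rw [lk_append_right hB] at hAR
  obtain ⟨q1, q2⟩ := lk_eq_iff.1 hAR
  obtain ⟨q3, q4⟩ := lk_eq_iff.1 hBC
  obtain ⟨q5, q6⟩ := lk_eq_iff.1 hCA
  have l1 : lk A C = [(d.1, d'.2)] := lk_eq_iff.2 ⟨q1, q4⟩
  have l2 : lk C B = [(y, d.2)] := lk_eq_iff.2 ⟨q5, q2⟩
  have l3 : lk B A = [(d'.1, x)] := lk_eq_iff.2 ⟨q3, q6⟩
  have b2 : bds (A ++ (C ++ B)) = lin A ++ [(d.1, d'.2)] ++ (lin C ++ [(y, d.2)] ++ lin B) ++
      [(d'.1, x)] := by
    rw [bds_append hA (by simp [hB]), lin_append C B, lk_append_left hB, lk_append_right hC,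
      l1, l2, l3]
  have hdc : lf p d.2 = bar (rt p d.1) := hPc d (hM d (by rw [b1]; simp))
  have hdc' : lf p d'.2 = bar (rt p d'.1) := hPc d' (hM d' (by rw [b1]; simp))
  have hyx : lf p x = bar (rt p y) := hPc (y, x) (hM (y, x) (by rw [b1]; simp))
  have n1 : G (d.1, d'.2).1.1 (d.1, d'.2).2.1 = false := h3
  have n2 : G (y, d.2).1.1 (y, d.2).2.1 = false := hd.2
  have n3 : G (d'.1, x).1.1 (d'.1, x).2.1 = false := by rw [hG]; exact h2
  refine ⟨A, B, C, rfl, ?_, ?_, ?_⟩
  · intro e he
    rw [b2] at he
    simp only [List.mem_append, List.mem_singleton] at he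
    rcases he with ((he | rfl) | ((he | rfl) | he)) | rfl
    · exact hM _ (by rw [b1]; simp [he])
    · refine hPa _ ?_ (Or.inl hd.1)
      rw [hdc', h1, hd.1]
    · exact hM _ (by rw [b1]; simp [he])
    · refine hPa _ ?_ (Or.inl ha)
      rw [hdc, ha, hd.1]
    · exact hM _ (by rw [b1]; simp [he])
    · refine hPa _ ?_ (Or.inl h1)
      rw [hyx, h1, ha]
  · rw [b1, b2]
    simp only [conf_append]
    have e1 : conf G [(d.1, d'.2)] = 0 := by
      unfold conf
      rw [List.countP_singleton, n1]
      rfl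
    have e2 : conf G [(y, d.2)] = 0 := by
      unfold conf
      rw [List.countP_singleton, n2]
      rfl
    have e3 : conf G [(d'.1, x)] = 0 := by
      unfold conf
      rw [List.countP_singleton, n3]
      rfl
    have e4 : conf G [(y, x)] = 1 := by
      unfold conf
      rw [List.countP_singleton]
      simp [hconf]
    omega
  · intro e he hGe
    rw [b2] at he
    simp only [List.mem_append, List.mem_singleton] at he
    rcases he with ((he | rfl) | ((he | rfl) | he)) | rfl
    · exact ⟨e, by rw [b1]; simp [he], Or.inl rfl⟩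
    · rw [n1] at hGe
      exact absurd hGe (by simp)
    · exact ⟨e, by rw [b1]; simp [he], Or.inl rfl⟩
    · rw [n2] at hGe
      exact absurd hGe (by simp)
    · exact ⟨e, by rw [b1]; simp [he], Or.inl rfl⟩
    · rw [n3] at hGe
      exact absurd hGe (by simp)

/-- **Exchange lemma.** -/
theorem exchangeG {P : (V × Bool) × (V × Bool) → Prop}
    (hPsw : ∀ d, P d → P (sw d)) (hPc : ∀ d, P d → lf p d.2 = bar (rt p d.1))
    {G : V → V → Bool} (hG : ∀ u v, G u v = G v u) {a : L}
    (hPa : ∀ d, lf p d.2 = bar (rt p d.1) → (rt p d.1 = a ∨ rt p d.1 = bar a) → P d)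
    {M : List (V × Bool)} (hM : ∀ d ∈ bds M, P d) {x y : V × Bool} (hxy : lk M M = [(y, x)])
    (ha : rt p y = a) (hconf : G y.1 x.1 = true)
    (hdeg : ∀ u, M.countP (fun e => G u e.1) ≤ g)
    (hcount : 5 * g + 3 ≤ (bds M).countP
      (fun d => decide (rt p d.1 = a) || decide (rt p d.1 = bar a))) :
    (∃ A B, M = A ++ B ∧ Good P G M (rev A ++ B)) ∨
      ∃ A B C, M = A ++ (B ++ C) ∧ Good P G M (A ++ (C ++ B)) := by
  have h1 : (bds M).countP (fun d => decide (rt p d.1 = a) || decide (rt p d.1 = bar a)) ≤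
      (lin M).countP (fun d => decide (rt p d.1 = a)) +
      (lin M).countP (fun d => decide (rt p d.1 = bar a)) + 1 := by
    rw [bds_eq, hxy, List.countP_append]
    have e1 : [(y, x)].countP
      (fun d => decide (rt p d.1 = a) || decide (rt p d.1 = bar a)) ≤ 1 :=
      List.countP_le_length
    have e3 := countP_or_le (fun d : (V × Bool) × (V × Bool) => decide (rt p d.1 = a))
      (fun d => decide (rt p d.1 = bar a)) (lin M)
    omega
  by_cases h5 : 2 * g + 1 ≤ (lin M).countP (fun d => decide (rt p d.1 = bar a))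
  · exact Or.inl (exchange_twoG hPsw hPc hG hPa hM hxy ha hconf hdeg h5)
  · exact Or.inr (exchange_threeG hPc hG hPa hM hxy ha hconf hdeg (by omega))

end

/-- **Specification of the local search.** -/
theorem fixTour_specG [DecidableEq V] [DecidableEq L] {p : V → L × L} {bar : L → L} {g : ℕ}
    (hbar : ∀ a, bar (bar a) = a) (hne : ∀ a, bar a ≠ a)
    {P : (V × Bool) × (V × Bool) → Bool} {G : V → V → Bool} {freq : L → Bool}
    (hPsw : ∀ d, P d = true → P (sw d) = true)
    (hPc : ∀ d, P d = true → lf p d.2 = bar (rt p d.1))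
    (hPf : ∀ d, lf p d.2 = bar (rt p d.1) → freq (rt p d.1) = true → P d = true)
    (hfb : ∀ a, freq a = true → freq (bar a) = true)
    (hG : ∀ u v, G u v = G v u) {M : List (V × Bool)}
    (hdeg : ∀ u, (M.map Prod.fst).countP (fun v => G u v) ≤ g)
    (hfc : ∀ a, freq a = true → 5 * g + 3 ≤ cnt p a (M.map Prod.fst))
    (hM : ∀ d ∈ bds M, P d = true) :
    ((fixTour P G M).map Prod.fst).Perm (M.map Prod.fst) ∧
    (∀ d ∈ bds (fixTour P G M), P d = true) ∧
    (∀ d ∈ bds (fixTour P G M), G d.1.1 d.2.1 = true → freq (rt p d.1) = false) ∧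
    (∀ d ∈ bds (fixTour P G M), G d.1.1 d.2.1 = true → ∃ d₀ ∈ bds M, d = d₀ ∨ d = sw d₀) := by
  -- invariant
  have inv : ∀ k, (∀ d ∈ bds ((fixStep P G)^[k] M), P d = true) ∧
      (∀ d ∈ bds ((fixStep P G)^[k] M), G d.1.1 d.2.1 = true →
        ∃ d₀ ∈ bds M, d = d₀ ∨ d = sw d₀) ∧
      (conf G (bds ((fixStep P G)^[k] M)) + k ≤ conf G (bds M) ∨
        ((nb ((fixStep P G)^[k] M)).filter (goodB P G ((fixStep P G)^[k] M))).head? = none) := by
    intro k
    induction k with
    | zero => exact ⟨hM, fun d hd _ => ⟨d, hd, Or.inl rfl⟩, Or.inl (by simp)⟩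
    | succ k ih =>
        rw [Function.iterate_succ_apply']
        obtain ⟨i1, i2, i3⟩ := ih
        set N := (fixStep P G)^[k] M with hN
        cases h : ((nb N).filter (goodB P G N)).head? with
        | none =>
            have e : fixStep P G N = N := by
              unfold fixStep
              rw [h]
              rfl
            rw [e]
            exact ⟨i1, i2, Or.inr h⟩
        | some N' =>
            have e : fixStep P G N = N' := by
              unfold fixStep
              rw [h]
              rfl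
            rw [e]
            have hmem := List.mem_of_head? h
            rw [List.mem_filter, goodB_iff] at hmem
            obtain ⟨-, g1, g2, g3⟩ := hmem
            refine ⟨g1, ?_, ?_⟩
            · intro d hd hGd
              obtain ⟨d₁, hd₁, h1⟩ := g3 d hd hGd
              have hGd₁ : G d₁.1.1 d₁.2.1 = true := by
                rcases h1 with rfl | rfl
                · exact hGd
                · simp only [sw, flip_fst] at hGd
                  rw [hG]
                  exact hGd
              obtain ⟨d₀, hd₀, h0⟩ := i2 d₁ hd₁ hGd₁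
              refine ⟨d₀, hd₀, ?_⟩
              rcases h1 with rfl | rfl <;> rcases h0 with rfl | rfl
              · exact Or.inl rfl
              · exact Or.inr rfl
              · exact Or.inr rfl
              · rw [sw_sw]
                exact Or.inl rfl
            · left
              rcases i3 with i3 | i3
              · omega
              · rw [i3] at h
                exact absurd h (by simp)
  obtain ⟨i1, i2, i3⟩ := inv M.length
  have hperm := fixIter_perm P G M M.length
  refine ⟨hperm, i1, ?_, i2⟩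
  change ∀ d ∈ bds ((fixStep P G)^[M.length] M), G d.1.1 d.2.1 = true → freq (rt p d.1) = false
  set N := (fixStep P G)^[M.length] M with hN
  intro d hd hGd
  by_contra hfr
  rw [Bool.not_eq_false] at hfr
  have hpos : 0 < conf G (bds N) := by
    unfold conf
    rw [List.countP_pos_iff]
    exact ⟨d, hd, hGd⟩
  have hle : conf G (bds M) ≤ M.length := by
    unfold conf
    exact List.countP_le_length.trans (bds_length M).le
  rcases i3 with i3 | i3
  · omega
  obtain ⟨k, hk, hrot⟩ := exists_rot hd
  set R := N.drop k ++ N.take k with hR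
  have hRN : (bds R).Perm (bds N) := bds_rot N k
  have hRmap : (R.map Prod.fst).Perm (M.map Prod.fst) := by
    refine List.Perm.trans ?_ hperm
    refine List.Perm.map _ ?_
    rw [hR]
    refine List.perm_append_comm.trans ?_
    rw [List.take_append_drop]
  have hRc : ∀ d ∈ bds R, lf p d.2 = bar (rt p d.1) := fun d hd =>
    hPc d (i1 d (hRN.mem_iff.1 hd))
  have hex := exchangeG (P := fun d => P d = true) (a := rt p d.1) hPsw hPc hG (M := R)
    (x := d.2) (y := d.1) (by
      intro d' h1 h2
      refine hPf d' h1 ?_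
      rcases h2 with h2 | h2
      · rw [h2]; exact hfr
      · rw [h2]; exact hfb _ hfr) (fun d hd => i1 d (hRN.mem_iff.1 hd)) hrot rfl hGd (by
      intro u
      have := hdeg u
      rw [← hRmap.countP_eq, List.countP_map] at this
      exact this) (by
      rw [count_class hbar hne hRc, cnt_perm _ hRmap]
      exact hfc _ hfr)
  have hgood : ∃ M' ∈ nb0 R, Good (fun d => P d = true) G R M' := by
    rcases hex with ⟨A, B, h1, h2⟩ | ⟨A, B, C, h1, h2⟩
    · exact ⟨_, mem_nb0.2 (Or.inl ⟨A, B, h1, rfl⟩), h2⟩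
    · exact ⟨_, mem_nb0.2 (Or.inr ⟨A, B, C, h1, rfl⟩), h2⟩
  obtain ⟨M', hM', g1, g2, g3⟩ := hgood
  have hmem : M' ∈ (nb N).filter (goodB P G N) := by
    rw [List.mem_filter, goodB_iff]
    refine ⟨?_, g1, ?_, ?_⟩
    · unfold nb
      rw [List.mem_flatMap]
      exact ⟨(N.take k, N.drop k), mem_splits.2 (List.take_append_drop _ _), hM'⟩
    · refine lt_of_lt_of_eq g2 ?_
      exact hRN.countP_eq _
    · intro d hd hGd
      obtain ⟨d₀, h0, h1⟩ := g3 d hd hGd
      exact ⟨d₀, hRN.mem_iff.1 h0, h1⟩
  rw [List.head?_eq_none_iff] at i3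
  rw [i3] at hmem
  exact absurd hmem (by simp)

end Pool.Agent.KS6_7.KP
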