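import Pool.Agent.KS6_7.KP.Alg
import Pool.Graph.R_seed8.H670R2.PspGeo

/-!
# Correctness of the algorithm, for several tours and distances which need not be symmetric
-/

set_option autoImplicit false

namespace Pool.Agent.KS6_7.KP

open Pool.Agent.NPC Pool.Agent.NPC.H670R2
open Pool.Agent.H670R2.PSP (IsPolyhedralBall pt steps edges len PolyTimeSigns Lb sg bar bar_bar bar_ne prodL mem_prodL
  nm cn cn_cons mem_nm nodup_nm nm_map_fst nm_length nm_perm bds lf rt adj adj_iff edge Closed perm_of_all
  hval hval_bar hval_sub sum_sg tl sum_bds steps_eq bds_map index_getElem map_index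
  mem_of_mem_bds lin lk lin_cons bds_eq bds_rev rev rev_map_fst sw edge_sw lf_flip rt_flip exists_fun
  bds_map_fst bds_map_snd_perm)

variable {m s q : ℕ}

/-! ### Orientation -/

section orientation

variable {V : Type}

theorem const_of_lin {M : List (V × Bool)} (h : ∀ d ∈ lin M, d.2.2 = d.1.2) :
    ∀ e ∈ M, ∀ e' ∈ M, e.2 = e'.2 := by
  induction M with
  | nil => intro e he; simp at he
  | cons x l ih =>
      rw [lin_cons] at h
      have ih' := ih fun d hd => h d (List.mem_append_right _ hd)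
      have hx : ∀ e ∈ l, e.2 = x.2 := by
        intro e he
        cases l with
        | nil => simp at he
        | cons y l =>
            have h1 : y.2 = x.2 := h (x, y) (List.mem_append_left _ (by simp [lk]))
            rw [← h1]
            exact ih' e he y (by simp)
      intro e he e' he'
      rcases List.mem_cons.1 he with h1 | h1 <;> rcases List.mem_cons.1 he' with h2 | h2
      · rw [h1, h2]
      · rw [h1, hx e' h2]
      · rw [h2, hx e h1]
      · rw [hx e h1, hx e' h2]

theorem closed_rev {L : Type} {p : V → L × L} {bar : L → L} (hbar : ∀ a, bar (bar a) = a)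
    {M : List (V × Bool)} (hM : Closed p bar M) : Closed p bar (rev M) := by
  intro d hd
  rw [(bds_rev M).mem_iff, List.mem_map] at hd
  obtain ⟨d, hd, rfl⟩ := hd
  simp only [sw, lf_flip, rt_flip]
  rw [hM d hd, hbar]

theorem mem_nrmM_bds {M : List (V × Bool)} {d : (V × Bool) × (V × Bool)} (hd : d ∈ bds (nrmM M)) :
    ∃ d₀ ∈ bds M, edge d = edge d₀ := by
  unfold nrmM at hd
  split_ifs at hd with h
  · rw [(bds_rev M).mem_iff, List.mem_map] at hd
    obtain ⟨d₀, hd₀, rfl⟩ := hd
    exact ⟨d₀, hd₀, edge_sw d₀⟩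
  · exact ⟨d, hd, rfl⟩

theorem nrmM_map_fst (M : List (V × Bool)) : ((nrmM M).map Prod.fst).Perm (M.map Prod.fst) := by
  unfold nrmM
  split_ifs
  · exact rev_map_fst M
  · exact List.Perm.refl _

end orientation

theorem nrmM_closed {i : Fin (q + 1)} {M : List ((TyK q m × ℕ) × Bool)} (hM : Closed (pK i) bar M) :
    Closed (pK i) bar (nrmM M) := by
  unfold nrmM
  split_ifs
  · exact closed_rev bar_bar hM
  · exact hM

theorem nrmM_false {i : Fin (q + 1)} {M : List ((TyK q m × ℕ) × Bool)} (hM : Closed (pK i) bar M) :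
    ∀ e ∈ nrmM M, e.2 = false := by
  have hlin : ∀ d ∈ lin M, d.2.2 = d.1.2 := by
    intro d hd
    have h1 := hM d (by rw [bds_eq]; exact List.mem_append_left _ hd)
    have h2 := congrArg Prod.snd h1
    rcases d with ⟨⟨u, b⟩, ⟨v, c⟩⟩
    cases b <;> cases c <;> simp [lf, rt, pK, bar] at h2 ⊢
  have hc := const_of_lin hlin
  unfold nrmM
  split_ifs with h
  · rw [List.any_eq_true] at h
    obtain ⟨e₀, he₀, h0⟩ := h
    intro e he
    unfold rev at he
    rw [List.mem_reverse, List.mem_map] at he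
    obtain ⟨e', he', rfl⟩ := he
    have := hc e' he' e₀ he₀
    simp [Pool.Agent.H670R2.PSP.flip, this, h0]
  · intro e he
    rw [List.any_eq_true] at h
    push Not at h
    simpa using h e he

/-! ### Feasibility -/

/-- the functional form of feasibility -/
def FeasF {κ : ℕ} (n : ℕ) (τ : Fin κ → List ℕ) : Prop :=
  3 ≤ n ∧ (∀ i, (τ i).Perm (List.range n)) ∧ ∀ i j, i ≠ j → ∀ e ∈ edges (τ i), e ∉ edges (τ j)

theorem feasibleK_iff {κ n : ℕ} {τs : List (List ℕ)} :
    FeasibleK κ n τs ↔ ∃ τ : Fin κ → List ℕ, τs = List.ofFn τ ∧ FeasF n τ := by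
  constructor
  · rintro ⟨h1, h2, h3, h4⟩
    subst h2
    refine ⟨τs.get, (List.ofFn_get τs).symm, h1, fun i => h3 _ (List.get_mem _ _), ?_⟩
    rw [List.pairwise_iff_get] at h4
    intro i j hij e he he'
    rcases lt_or_gt_of_ne hij with h | h
    · exact h4 i j h e he he'
    · exact h4 j i h e he' he
  · rintro ⟨τ, rfl, h1, h2, h3⟩
    refine ⟨h1, List.length_ofFn, ?_, ?_⟩
    · intro σ hσ
      rw [List.mem_ofFn] at hσ
      obtain ⟨i, rfl⟩ := hσ
      exact h2 i
    · rw [List.pairwise_ofFn]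
      intro i j hij
      exact h3 i j hij.ne

/-! ### Weights -/

/-- value of a type at a point -/
noncomputable def valK (A : Fin m → Fin s → ℝ) (t : TyK q m) (x : Fin s → ℝ) : ℝ :=
  ∑ i, (hval A ((t i).1, false) x + hval A ((t i).2, true) x)

theorem sum_cf (A : Fin m → Fin s → ℝ) (t : TyK q m) (x : Fin s → ℝ) :
    ∑ j, (cf j t : ℝ) * ∑ k, A j k * x k = valK A t x := by
  unfold cf valK
  simp only [← sum_sg A _ x]
  push_cast
  simp only [Finset.sum_mul]
  rw [Finset.sum_comm]
  refine Finset.sum_congr rfl fun i _ => ?_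
  rw [← Finset.sum_add_distrib]
  refine Finset.sum_congr rfl fun j _ => ?_
  rw [add_mul]

theorem rwt_eq (A : Fin m → Fin s → ℝ) (X : ℕ → Fin s → ℝ) (D : ℝ) :
    ∀ (a : List (TyK q m)) (Z : List (List ℤ)) (i₀ : ℕ), a.length = Z.length →
      (∀ i < Z.length, ∀ k : Fin s, ((Z.getD i []).getD k 0 : ℝ) = D * X (i₀ + i) k) →
      rwt A a Z = D * ((a.zipIdx i₀).map fun q => valK A q.1 (X q.2)).sum := by
  intro a
  induction a with
  | nil =>
      intro Z i₀ h _
      have : Z = [] := List.length_eq_zero_iff.1 h.symm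
      subst this
      simp [rwt, wc]
  | cons t a ih =>
      intro Z i₀ h hZ
      cases Z with
      | nil => simp at h
      | cons z Z =>
          rw [rwt_cons, ih Z (i₀ + 1) (by simpa using h) (by
            intro i hi k
            have := hZ (i + 1) (by simpa using hi) k
            rw [List.getD_cons_succ] at this
            rw [this, show i₀ + 1 + i = i₀ + (i + 1) by ring])]
          rw [List.zipIdx_cons, List.map_cons, List.sum_cons, mul_add]
          congr 1
          simp only
          rw [← sum_cf, Finset.mul_sum]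
          refine Finset.sum_congr rfl fun j _ => ?_
          rw [Finset.mul_sum, Finset.mul_sum]
          refine Finset.sum_congr rfl fun k _ => ?_
          have := hZ 0 (by simp) k
          rw [List.getD_cons_zero, Nat.add_zero] at this
          rw [this]
          ring

theorem nm_zipIdx {γ : Type} (a : List (TyK q m)) (g : TyK q m → ℕ → γ) :
    (nm a).map (fun v => g v.1 (index (nm a) v)) = a.zipIdx.map fun q => g q.1 q.2 := by
  refine List.ext_getElem (by simp [nm_length]) fun i h1 h2 => ?_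
  have hi : i < (nm a).length := by simpa using h1
  have hi' : i < a.length := by rwa [nm_length] at hi
  rw [List.getElem_map, List.getElem_map, index_getElem (nodup_nm a) i hi, List.getElem_zipIdx]
  simp only [Nat.zero_add]
  congr 1
  have : (nm a)[i].1 = ((nm a).map Prod.fst)[i]'(by simpa using hi) := by
    rw [List.getElem_map]
  rw [this]
  congr 1
  exact nm_map_fst a

section correctness

variable {A : Fin m → Fin s → ℝ} {nrm : (Fin s → ℝ) → ℝ} {X : ℕ → Fin s → ℝ}

/-- the labels bound the length from below -/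
theorem tl_ge (h1 : ∀ (l : Fin m) x, hval A (l, true) x ≤ nrm x) (a : List (TyK q m)) {i : Fin (q + 1)}
    {M : List ((TyK q m × ℕ) × Bool)} (hM : Closed (pK i) bar M) (hp : (M.map Prod.fst).Perm (nm a)) :
    ((nm a).map fun v => hval A ((v.1 i).1, false) (X (index (nm a) v)) +
      hval A ((v.1 i).2, true) (X (index (nm a) v))).sum ≤ tl nrm X (toTour a M) := by
  have hN := nrmM_closed hM
  have hNf := nrmM_false hM
  have hNp := (nrmM_map_fst M).trans hp
  unfold toTour
  set N := nrmM M with hNdef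
  have e1 := sum_bds (pK i) (fun l v => hval A l (X (index (nm a) v))) N
  have e2 := (hNp.map fun v => hval A (pK i v).1 (X (index (nm a) v)) +
      hval A (pK i v).2 (X (index (nm a) v))).sum_eq
  have e3 : ((nm a).map fun v => hval A ((v.1 i).1, false) (X (index (nm a) v)) +
      hval A ((v.1 i).2, true) (X (index (nm a) v))).sum = ((nm a).map fun v =>
      hval A (pK i v).1 (X (index (nm a) v)) + hval A (pK i v).2 (X (index (nm a) v))).sum := rfl
  rw [e3, ← e2, ← e1]
  unfold tl
  rw [steps_eq, bds_map, List.map_map]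
  refine List.sum_le_sum fun d hd => ?_
  have hf : d.1.2 = false := hNf d.1 (mem_of_mem_bds hd).1
  have hrt : rt (pK i) d.1 = ((d.1.1.1 i).2, true) := by
    unfold rt
    rw [hf]
    rfl
  refine le_trans (le_of_eq ?_) (h1 ((d.1.1.1 i).2) _)
  rw [hval_sub, hN d hd, hrt]

/-- an optimal labelling of a round-trip -/
theorem exists_labels (h2 : ∀ x, ∃ l : Fin m, hval A (l, true) x = nrm x) {τ : List ℕ} (hτ : τ.Nodup) :
    ∃ r : ℕ → Fin m × Fin m, (∀ d ∈ bds τ, (r d.2).1 = (r d.1).2) ∧
      (τ.map fun i => hval A ((r i).1, false) (X i) + hval A ((r i).2, true) (X i)).sum = tl nrm X τ := by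
  obtain ⟨l₀, -⟩ := h2 0
  haveI : Inhabited (Fin m) := ⟨l₀⟩
  choose lab hlab using fun d : ℕ × ℕ => h2 (X d.1 - X d.2)
  obtain ⟨r, hr⟩ := exists_fun (bds τ) Prod.fst lab (by rw [bds_map_fst]; exact hτ)
  obtain ⟨l, hl⟩ := exists_fun (bds τ) Prod.snd lab ((bds_map_snd_perm τ).symm.nodup hτ)
  refine ⟨fun i => (l i, r i), ?_, ?_⟩
  · intro d hd
    simp only
    rw [hr d hd, hl d hd]
  · have := sum_bds (fun i => (((l i, false) : Lb m), ((r i, true) : Lb m))) (fun l i => hval A l (X i))
      (τ.map fun i => (i, false))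
    have e : ((τ.map fun i => (i, false)).map Prod.fst) = τ := by
      rw [List.map_map]
      have : (Prod.fst ∘ fun i : ℕ => (i, false)) = id := rfl
      rw [this, List.map_id]
    rw [e] at this
    simp only at this
    rw [← this, bds_map, List.map_map]
    unfold tl
    rw [steps_eq]
    congr 1
    refine List.map_congr_left fun d hd => ?_
    simp only [Function.comp, rt, lf, Bool.false_eq_true, if_false]
    rw [← hlab d, hval_sub, hr d hd, hl d hd]
    rfl

theorem feasible_of_realn {n : ℕ} {a : List (TyK q m)} {M : Trs q m} (hn : 3 ≤ n)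
    (ha : a.length = n) (h : RealnK pK bar (nm a) M) : FeasF n (fun i => toTour a (M i)) := by
  obtain ⟨h1, -, h5⟩ := h
  have hr : (nm a).map (fun v => index (nm a) v) = List.range n := by
    rw [map_index (nodup_nm a), nm_length, ha]
  have h1' : ∀ i, ((nrmM (M i)).map Prod.fst).Perm (nm a) := fun i => (nrmM_map_fst _).trans (h1 i)
  refine ⟨hn, ?_, ?_⟩
  · intro i
    rw [← hr]
    have := (h1' i).map fun v => index (nm a) v
    rw [List.map_map] at this
    exact this
  · intro i j hij e he he'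
    unfold edges toTour at he he'
    rw [steps_eq, bds_map, List.map_map, List.mem_map] at he he'
    obtain ⟨d, hd, rfl⟩ := he
    obtain ⟨d', hd', he⟩ := he'
    simp only [Function.comp] at he
    have m1 : d.1.1 ∈ nm a := (h1' i).mem_iff.1 (List.mem_map_of_mem (mem_of_mem_bds hd).1)
    have m2 : d.2.1 ∈ nm a := (h1' i).mem_iff.1 (List.mem_map_of_mem (mem_of_mem_bds hd).2)
    have m3 : d'.1.1 ∈ nm a := (h1' j).mem_iff.1 (List.mem_map_of_mem (mem_of_mem_bds hd').1)
    have m4 : d'.2.1 ∈ nm a := (h1' j).mem_iff.1 (List.mem_map_of_mem (mem_of_mem_bds hd').2)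
    obtain ⟨d₀, hd₀, g1⟩ := mem_nrmM_bds hd
    obtain ⟨d₀', hd₀', g2⟩ := mem_nrmM_bds hd'
    refine h5 i j hij d₀ hd₀ d₀' hd₀' ?_
    rw [← g1, ← g2]
    unfold edge
    rw [Sym2.eq_iff] at he ⊢
    rcases he with ⟨e1, e2⟩ | ⟨e1, e2⟩
    · exact Or.inl ⟨(index_inj m3 m1 e1).symm, (index_inj m4 m2 e2).symm⟩
    · exact Or.inr ⟨(index_inj m4 m1 e2).symm, (index_inj m3 m2 e1).symm⟩

theorem sum_list_sum {ι α : Type} (t : Finset ι) (l : List α) (f : ι → α → ℝ) :
    (l.map fun x => ∑ i ∈ t, f i x).sum = ∑ i ∈ t, (l.map (f i)).sum := by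
  induction l with
  | nil => simp
  | cons x l ih => simp only [List.map_cons, List.sum_cons, ih, Finset.sum_add_distrib]

/-- an optimal labelling of the round-trips -/
theorem exists_assignment (h2 : ∀ x, ∃ l : Fin m, hval A (l, true) x = nrm x) {n : ℕ}
    {τ : Fin (q + 1) → List ℕ}
    (h : FeasF n τ) : ∃ (a : List (TyK q m)) (M : Trs q m),
      a.length = n ∧ RealnK pK bar (nm a) M ∧
      (a.zipIdx.map fun q => valK A q.1 (X q.2)).sum = ∑ i, tl nrm X (τ i) := by
  obtain ⟨h3, hτ, hd⟩ := h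
  choose lab c1 w1 using fun i => exists_labels (X := X) h2 ((hτ i).symm.nodup List.nodup_range)
  set a : List (TyK q m) := (List.range n).map fun i => (fun c => lab c i) with ha
  have hal : a.length = n := by simp [ha]
  have hnl : (nm a).length = n := by rw [nm_length, hal]
  have hn0 : nm a ≠ [] := by
    intro h
    rw [h] at hnl
    simp at hnl
    omega
  obtain ⟨v₀, hv₀⟩ := List.exists_mem_of_ne_nil _ hn0
  let name : ℕ → TyK q m × ℕ := fun i => (nm a).getD i v₀
  have hname : ∀ i (hi : i < n), name i = (nm a)[i]'(by rw [hnl]; exact hi) := by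
    intro i hi
    exact List.getD_eq_getElem _ _ _
  have hname1 : ∀ i < n, (name i).1 = fun c => lab c i := by
    intro i hi
    rw [hname i hi]
    have : (nm a)[i].1 = ((nm a).map Prod.fst)[i]'(by simp [nm_length, hal, hi]) := by
      rw [List.getElem_map]
    rw [this]
    have h' : ((nm a).map Prod.fst)[i]'(by simp [nm_length, hal, hi]) =
        a[i]'(by rw [hal]; exact hi) := by
      congr 1
      exact nm_map_fst a
    rw [h']
    simp [ha]
  have hnameinj : ∀ i < n, ∀ j < n, name i = name j → i = j := by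
    intro i hi j hj hij
    rw [hname i hi, hname j hj] at hij
    exact (List.Nodup.getElem_inj_iff (nodup_nm a)).1 hij
  have hmapname : (List.range n).map name = nm a := by
    refine List.ext_getElem (by simp [hnl]) fun i h1 h2 => ?_
    rw [List.getElem_map, List.getElem_range]
    exact hname i (by simpa using h1)
  have hlt : ∀ {ρ : List ℕ}, ρ.Perm (List.range n) → ∀ d ∈ bds ρ, d.1 < n ∧ d.2 < n := by
    intro ρ hρ d hd
    have := mem_of_mem_bds hd
    rw [hρ.mem_iff, hρ.mem_iff, List.mem_range, List.mem_range] at this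
    exact this
  refine ⟨a, fun i => (τ i).map fun i => (name i, false), hal, ⟨?_, ?_, ?_⟩, ?_⟩
  · intro i
    rw [List.map_map, ← hmapname]
    exact (hτ i).map name
  · intro i d hd'
    rw [bds_map, List.mem_map] at hd'
    obtain ⟨d, hd', rfl⟩ := hd'
    obtain ⟨l1, l2⟩ := hlt (hτ i) d hd'
    simp only [lf, rt, pK, Bool.false_eq_true, if_false]
    rw [hname1 _ l1, hname1 _ l2, c1 i d hd']
    rfl
  · intro i j hij e he e' he' hee
    rw [bds_map, List.mem_map] at he he'
    obtain ⟨d, hd1, rfl⟩ := he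
    obtain ⟨d', hd2, rfl⟩ := he'
    obtain ⟨l1, l2⟩ := hlt (hτ i) d hd1
    obtain ⟨l3, l4⟩ := hlt (hτ j) d' hd2
    refine hd i j hij s(d.1, d.2) ?_ ?_
    · unfold edges
      rw [steps_eq]
      exact List.mem_map.2 ⟨d, hd1, rfl⟩
    · unfold edges
      rw [steps_eq]
      refine List.mem_map.2 ⟨d', hd2, ?_⟩
      unfold edge at hee
      simp only at hee ⊢
      rw [Sym2.eq_iff] at hee ⊢
      rcases hee with ⟨e1, e2⟩ | ⟨e1, e2⟩
      · exact Or.inl ⟨(hnameinj _ l1 _ l3 e1).symm, (hnameinj _ l2 _ l4 e2).symm⟩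
      · exact Or.inr ⟨(hnameinj _ l2 _ l3 e2).symm, (hnameinj _ l1 _ l4 e1).symm⟩
  · have e0 : a.zipIdx = (List.range n).map fun i => ((fun c => lab c i), i) := by
      refine List.ext_getElem (by simp [hal]) fun i h1 h2 => ?_
      simp [ha]
    rw [e0, List.map_map]
    have e1 : ((fun q : TyK q m × ℕ => valK A q.1 (X q.2)) ∘ fun i => ((fun c => lab c i), i))
        = fun i : ℕ => ∑ c, (hval A ((lab c i).1, false) (X i) + hval A ((lab c i).2, true) (X i)) := rfl
    rw [e1, sum_list_sum]
    refine Finset.sum_congr rfl fun c _ => ?_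
    rw [← w1 c]
    exact ((hτ c).map fun i => hval A ((lab c i).1, false) (X i) +
      hval A ((lab c i).2, true) (X i)).sum_eq.symm

theorem algZ_spec {σ : List (List ℤ) → Bool}
    (hσ : ∀ z : Fin m → Fin s → ℤ, σ (List.ofFn fun i => List.ofFn (z i)) = true ↔
      0 < ∑ i, ∑ k, A i k * (z i k : ℝ)) (h1 : ∀ (l : Fin m) x, hval A (l, true) x ≤ nrm x)
    (h2 : ∀ x, ∃ l : Fin m, hval A (l, true) x = nrm x) {tb : Tb q m}
    (htb : ∀ (a a' : List (TyK q m)) (M : Trs q m),
        RealnK pK bar (nm a) M → (∀ t, cn t a' = cn t a) →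
        ∃ O ∈ tb, RealnK pK bar (nm a') (attemptK O a'))
    {D : ℝ} (hD : 0 < D) {Z : List (List ℤ)}
    (hZ : ∀ i < Z.length, ∀ k : Fin s, ((Z.getD i []).getD k 0 : ℝ) = D * X i k) :
    match algZ σ s tb Z with
    | none => ∀ τ : Fin (q + 1) → List ℕ, ¬ FeasF Z.length τ
    | some o => ∃ ρ : Fin (q + 1) → List ℕ, o = List.ofFn ρ ∧ FeasF Z.length ρ ∧
        ∀ τ : Fin (q + 1) → List ℕ, FeasF Z.length τ →
        ∑ i, tl nrm X (τ i) ≤ ∑ i, tl nrm X (ρ i) := by
  -- completeness
  have key1 : ∀ τ : Fin (q + 1) → List ℕ, FeasF Z.length τ → ∃ x ∈ outs σ s tb Z,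
      D * ∑ i, tl nrm X (τ i) ≤ rwt A x.1 Z := by
    intro τ hf
    obtain ⟨a, M, ha, hR, hw⟩ := exists_assignment (X := X) h2 hf
    obtain ⟨a', ha', hc, hle⟩ := dp_spec hσ Z.length Z le_rfl a ha
    obtain ⟨O, hO, hR'⟩ := htb a a' M hR hc
    refine ⟨(a', attemptK O a'), ?_, ?_⟩
    · unfold outs
      rw [List.mem_filter, realB_iff]
      refine ⟨List.mem_flatMap.2 ⟨a', ha', List.mem_map.2 ⟨O, hO, rfl⟩⟩, hf.1, ?_, hR'⟩
      rw [← nm_length, (nm_perm hc).length_eq, nm_length, ha]
    · refine le_trans (le_of_eq ?_) hle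
      rw [← hw, rwt_eq A X D a Z 0 ha (by simpa using hZ)]
  -- soundness
  have key2 : ∀ x ∈ outs σ s tb Z, FeasF Z.length (fun i => toTour x.1 (x.2 i)) ∧
      rwt A x.1 Z ≤ D * ∑ i, tl nrm X (toTour x.1 (x.2 i)) := by
    intro x hx
    unfold outs at hx
    rw [List.mem_filter, realB_iff] at hx
    obtain ⟨-, g1, g2, g3⟩ := hx
    refine ⟨feasible_of_realn g1 g2 g3, ?_⟩
    rw [rwt_eq A X D x.1 Z 0 g2 (by simpa using hZ)]
    refine mul_le_mul_of_nonneg_left ?_ hD.le
    have t1 := fun i => tl_ge (X := X) h1 x.1 (g3.2.1 i) (g3.1 i)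
    refine le_trans (le_of_eq ?_) (Finset.sum_le_sum fun i _ => t1 i)
    rw [← nm_zipIdx x.1 fun t i => valK A t (X i)]
    exact sum_list_sum _ _ _
  unfold algZ
  cases hb : best (fun x y => σ (dif s x.1 y.1 Z)) (outs σ s tb Z) with
  | none =>
      simp only [Option.map_none]
      intro τ hf
      obtain ⟨x, hx, -⟩ := key1 τ hf
      obtain ⟨y, hy⟩ := best_ne_none (lt := fun x y => σ (dif s x.1 y.1 Z))
        (List.ne_nil_of_mem hx)
      rw [hb] at hy
      exact absurd hy (by simp)
  | some b =>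
      simp only [Option.map_some]
      have hbm := best_mem _ b hb
      obtain ⟨f1, f2⟩ := key2 b hbm
      refine ⟨fun i => toTour b.1 (b.2 i), rfl, f1, ?_⟩
      intro τ hf
      obtain ⟨x, hx, hx2⟩ := key1 τ hf
      have := best_spec (γ := ℝ) (fun x => -rwt A x.1 Z) _ (by
        intro x _ y _
        rw [dif_iff hσ, neg_lt_neg_iff]) b hb x hx
      have h5 : D * ∑ i, tl nrm X (τ i) ≤ D * ∑ i, tl nrm X (toTour b.1 (b.2 i)) := by
        simp only [neg_le_neg_iff] at this
        linarith
      exact le_of_mul_le_mul_left h5 hD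

end correctness

end Pool.Agent.KS6_7.KP
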