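import Pool.Agent.KS6_7.KP.Alg
import Pool.Graph.R_seed8.H670R2.PspPoly2

/-!
# The algorithm for several tours runs in polynomial time
-/

set_option autoImplicit false

namespace Pool.Agent.KS6_7.KP

open Pool.Agent.NPC Pool.Agent.NPC.H670R2 Pool.Agent.H670R2
open Pool.Agent.NPC.CL (polyOfFintype)
open Pool.Agent.H670R2.PSP (IsPolyhedralBall pt steps edges len PolyTimeSigns Lb sg bar bar_bar bar_ne prodL mem_prodL
  nm cn cn_cons mem_nm nodup_nm nm_map_fst nm_length nm_perm bds lf rt adj adj_iff edge Closed perm_of_all cnt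
  extTour fixTour)

/-! ### Finite families -/

instance instTEncPi (n : ℕ) (β : Type) [TEnc β] : TEnc (Fin n → β) :=
  ⟨fun f => toT (List.ofFn f), fun _ _ h => List.ofFn_injective (TEnc.inj h)⟩

section families

variable {α β ι : Type} [TEnc α] [TEnc β] {n : ℕ}

theorem poly_ofFnF {F : α → Fin n → β} (hF : NPC.Poly F) : NPC.Poly (fun a => List.ofFn (F a)) :=
  NPC.Poly.of_toT hF.toT'

theorem poly_app [Inhabited β] {F : α → Fin n → β} (hF : NPC.Poly F) (i : Fin n) : NPC.Poly (fun a => F a i) :=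
  (NPC.Poly.getD (poly_ofFnF hF) (NPC.Poly.const (i : ℕ)) (NPC.Poly.const (default : β))).congr fun a => by
    rw [List.getD_eq_getElem _ _ (by simp)]
    simp

theorem poly_pi {g : Fin n → α → β} (hg : ∀ j, NPC.Poly (g j)) : NPC.Poly (fun a => fun j => g j a) :=
  NPC.Poly.of_toT (poly_ofFn hg).toT'

theorem poly_update [Inhabited β] {F : α → Fin n → β} {x : α → β} (hF : NPC.Poly F) (hx : NPC.Poly x) (i : Fin n) :
    NPC.Poly (fun a => Function.update (F a) i (x a)) := by
  refine poly_pi (g := fun j a => Function.update (F a) i (x a) j) fun j => ?_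
  by_cases h : j = i
  · subst h
    exact hx.congr fun a => by rw [Function.update_self]
  · exact (poly_app hF j).congr fun a => by rw [Function.update_of_ne h]

theorem poly_map_const (l : List ι) {f : ι → α → β} (hf : ∀ i, NPC.Poly (f i)) :
    NPC.Poly (fun a => l.map fun i => f i a) := by
  induction l with
  | nil => exact NPC.Poly.const _
  | cons i l ih => exact NPC.Poly.cons (hf i) ih

theorem poly_all_const (l : List ι) {b : ι → α → Bool} (hb : ∀ i, NPC.Poly (b i)) :
    NPC.Poly (fun a => l.all fun i => b i a) := by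
  induction l with
  | nil => exact NPC.Poly.const _
  | cons i l ih => exact (NPC.Poly.and (hb i) ih).congr fun a => by rw [List.all_cons]

theorem poly_foldl_const (l : List ι) {f : α → β → ι → β} (hf : ∀ i, NPC.Poly (fun p : α × β => f p.1 p.2 i))
    {s : α → β} (hs : NPC.Poly s) : NPC.Poly (fun a => l.foldl (f a) (s a)) := by
  induction l generalizing s with
  | nil => exact hs
  | cons i l ih =>
      exact ih (s := fun a => f a (s a) i) ((hf i).comp (NPC.Poly.pair NPC.Poly.id hs))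

end families

/-! ### The tours -/

section realize

variable {α V L : Type} [TEnc α] [TEnc V] [TEnc L] [DecidableEq V] [DecidableEq L]
  {p : V → L × L} {bar : L → L}

theorem poly_adjs {N : α → List (List (V × Bool))} {u v : α → V} (hN : NPC.Poly N)
    (hu : NPC.Poly u) (hv : NPC.Poly v) : NPC.Poly (fun a => adjs (N a) (u a) (v a)) :=
  NPC.Poly.any (p := fun a M => adj M (u a) (v a)) hN
    (poly_adj (NPC.Poly.snd NPC.Poly.id) (hu.comp (NPC.Poly.fst NPC.Poly.id)) (hv.comp (NPC.Poly.fst NPC.Poly.id)))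

omit [DecidableEq V] in
theorem poly_frqG (F : ℕ) (hp : NPC.Poly p) {O : α → List (V × Bool)}
    {x : α → L} (hO : NPC.Poly O) (hx : NPC.Poly x) : NPC.Poly (fun a => frqG F p (O a) (x a)) :=
  NPC.Poly.decide_le (NPC.Poly.const F) (poly_cnt hp hx (poly_vts hO))

theorem poly_alwG (F : ℕ) (hp : NPC.Poly p)
    (hb : NPC.Poly bar) {O : α → List (V × Bool)} {d : α → (V × Bool) × (V × Bool)} (hO : NPC.Poly O)
    (hd : NPC.Poly d) : NPC.Poly (fun a => alwG F p bar (O a) (d a)) :=
  NPC.Poly.and (NPC.Poly.decide_eq (poly_lf hp (NPC.Poly.snd hd)) (hb.comp (poly_rt hp (NPC.Poly.fst hd))))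
    (NPC.Poly.or (poly_frqG F hp hO (poly_rt hp (NPC.Poly.fst hd)))
      (poly_adj hO (NPC.Poly.fst (NPC.Poly.fst hd)) (NPC.Poly.fst (NPC.Poly.snd hd))))

theorem poly_ext1G (F : ℕ) (hp : NPC.Poly p) (hb : NPC.Poly bar) {O : α → List (V × Bool)} {U : α → List V}
    (hO : NPC.Poly O) (hU : NPC.Poly U) : NPC.Poly (fun a => ext1G F p bar (O a) (U a)) := by
  unfold ext1G
  refine poly_extTour (P := fun a => alwG F p bar (O a)) (freq := fun a => frqG F p (O a)) hp ?_ ?_ hO hU
  · exact poly_alwG F hp hb (hO.comp (NPC.Poly.fst NPC.Poly.id)) (NPC.Poly.snd NPC.Poly.id)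
  · exact poly_frqG F hp (hO.comp (NPC.Poly.fst NPC.Poly.id)) (NPC.Poly.snd NPC.Poly.id)

theorem poly_fix1G (F : ℕ) (hp : NPC.Poly p) (hb : NPC.Poly bar) {O M : α → List (V × Bool)}
    {N : α → List (List (V × Bool))} (hO : NPC.Poly O) (hM : NPC.Poly M) (hN : NPC.Poly N) :
    NPC.Poly (fun a => fix1G F p bar (O a) (M a) (N a)) := by
  unfold fix1G
  refine poly_fixTour (P := fun a => alwG F p bar (O a)) (G := fun a => adjs (N a)) ?_ ?_ hM
  · exact poly_alwG F hp hb (hO.comp (NPC.Poly.fst NPC.Poly.id)) (NPC.Poly.snd NPC.Poly.id)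
  · exact poly_adjs (hN.comp (NPC.Poly.fst NPC.Poly.id)) (NPC.Poly.fst (NPC.Poly.snd NPC.Poly.id))
      (NPC.Poly.snd (NPC.Poly.snd NPC.Poly.id))

variable {κ : ℕ} {pp : Fin κ → V → L × L}

omit [DecidableEq V] in
theorem poly_others {M : α → Fin κ → List (V × Bool)} (hM : NPC.Poly M) (i : Fin κ) :
    NPC.Poly (fun a => others (M a) i) := by
  unfold others
  exact poly_map_const _ fun j => poly_app hM j

theorem poly_stepK (F : ℕ) (hp : ∀ i, NPC.Poly (pp i)) (hb : NPC.Poly bar) {O M : α → Fin κ → List (V × Bool)}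
    (hO : NPC.Poly O) (hM : NPC.Poly M) (i : Fin κ) : NPC.Poly (fun a => stepK F pp bar (O a) (M a) i) := by
  unfold stepK
  exact poly_update hM (poly_fix1G F (hp i) hb (poly_app hO i) (poly_app hM i) (poly_others hM i)) i

theorem poly_realizeK (F : ℕ) (hp : ∀ i, NPC.Poly (pp i)) (hb : NPC.Poly bar) {O : α → Fin κ → List (V × Bool)}
    {U : α → List V} (hO : NPC.Poly O) (hU : NPC.Poly U) :
    NPC.Poly (fun a => realizeK F pp bar (O a) (U a)) := by
  unfold realizeK
  refine poly_foldl_const (f := fun a M i => stepK F pp bar (O a) M i) (List.finRange κ) ?_ ?_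
  · intro i
    exact poly_stepK F hp hb (hO.comp (NPC.Poly.fst NPC.Poly.id)) (NPC.Poly.snd NPC.Poly.id) i
  · exact poly_pi (g := fun i a => ext1G F (pp i) bar (O a i) (U a)) fun i =>
      poly_ext1G F (hp i) hb (poly_app hO i) hU

end realize

/-! ### The algorithm -/

section alg

variable {α : Type} [TEnc α] {m s q : ℕ}

theorem poly_pK (i : Fin (q + 1)) : NPC.Poly (pK i : TyK q m × ℕ → Lb m × Lb m) :=
  (polyOfFintype (fun t : TyK q m => ((((t i).1, false), ((t i).2, true)) : Lb m × Lb m))).comp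
    (NPC.Poly.fst NPC.Poly.id)

theorem poly_extrasK {O : α → List ((TyK q m × ℕ) × Bool)} {a : α → List (TyK q m)}
    (hO : NPC.Poly O) (ha : NPC.Poly a) : NPC.Poly (fun x => extrasK (O x) (a x)) := by
  have h1 : NPC.Poly (fun r : (α × (TyK q m × ℕ)) × ((TyK q m × ℕ) × Bool) =>
      decide (r.2.1 = r.1.2)) :=
    NPC.Poly.decide_eq (NPC.Poly.fst (NPC.Poly.snd NPC.Poly.id)) (NPC.Poly.snd (NPC.Poly.fst NPC.Poly.id))
  have h2 : NPC.Poly (fun r : α × (TyK q m × ℕ) => O r.1) := hO.comp (NPC.Poly.fst NPC.Poly.id)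
  have h3 : NPC.Poly (fun r : α × (TyK q m × ℕ) => (O r.1).any fun e => decide (e.1 = r.2)) :=
    NPC.Poly.any (p := fun (r : α × (TyK q m × ℕ)) (e : (TyK q m × ℕ) × Bool) =>
      decide (e.1 = r.2)) h2 h1
  have h4 : NPC.Poly (fun r : α × (TyK q m × ℕ) => !((O r.1).any fun e => decide (e.1 = r.2))) :=
    NPC.Poly.not h3
  exact NPC.Poly.filter (p := fun x (v : TyK q m × ℕ) => !((O x).any fun e => decide (e.1 = v)))
    (poly_nm ha) h4

theorem poly_attemptK {O : α → Trs q m} {a : α → List (TyK q m)} (hO : NPC.Poly O) (ha : NPC.Poly a) :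
    NPC.Poly (fun x => attemptK (O x) (a x)) := by
  unfold attemptK
  exact poly_realizeK (FK q) poly_pK poly_bar hO (poly_extrasK (poly_app hO 0) ha)

theorem poly_wc (j : Fin m) (k : ℕ) {a : α → List (TyK q m)} {Z : α → List (List ℤ)}
    (ha : NPC.Poly a) (hZ : NPC.Poly Z) : NPC.Poly (fun x => wc j k (a x) (Z x)) := by
  unfold wc
  exact NPC.Poly.isum (NPC.Poly.zipWith (F := fun _ t z => cf j t * z.getD k 0) ha hZ
    (NPC.Poly.imul ((polyOfFintype (cf j)).comp (NPC.Poly.fst (NPC.Poly.snd NPC.Poly.id)))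
      (NPC.Poly.getD (NPC.Poly.snd (NPC.Poly.snd NPC.Poly.id)) (NPC.Poly.const k) (NPC.Poly.const 0))))

theorem poly_dif {a a' : α → List (TyK q m)} {Z : α → List (List ℤ)}
    (ha : NPC.Poly a) (ha' : NPC.Poly a') (hZ : NPC.Poly Z) : NPC.Poly (fun x => dif s (a x) (a' x) (Z x)) :=
  poly_ofFn fun j => poly_ofFn fun k => NPC.Poly.isub (poly_wc j k ha hZ) (poly_wc j k ha' hZ)

theorem poly_keyv {a : α → List (TyK q m)} (ha : NPC.Poly a) : NPC.Poly (fun x => key (a x)) :=
  NPC.Poly.map (l := fun _ => tys q m) (F := fun x t => cn t (a x)) (NPC.Poly.const _)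
    (poly_cn (NPC.Poly.snd NPC.Poly.id) (ha.comp (NPC.Poly.fst NPC.Poly.id)))

theorem poly_keys {Z : α → List (List ℤ)} (hZ : NPC.Poly Z) :
    NPC.Poly (fun x => keys q m (Z x).length) :=
  poly_prodL _ (UPoly.range (UPoly.add (UPoly.length hZ) (UPoly.const 1)))

theorem poly_dpStep {σ : List (List ℤ) → Bool} (hσ : NPC.Poly σ) {K : α → List (List ℕ)}
    {z : α → List ℤ} {st : α → List (List ℤ) × List (List (TyK q m))} (hK : NPC.Poly K)
    (hz : NPC.Poly z) (hst : NPC.Poly st) : NPC.Poly (fun x => dpStep σ s (K x) (z x) (st x)) := by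
  unfold dpStep
  have hZ : NPC.Poly (fun x => z x :: (st x).1) := NPC.Poly.cons hz (NPC.Poly.fst hst)
  have hC : NPC.Poly (fun x => (st x).2.flatMap fun a => (tys q m).map fun t => t :: a) :=
    NPC.Poly.flatMap (F := fun _ a => (tys q m).map fun t => t :: a) (NPC.Poly.snd hst)
      (NPC.Poly.map (l := fun _ => tys q m) (F := fun (p : α × List (TyK q m)) t => t :: p.2)
        (NPC.Poly.const _) (NPC.Poly.cons (NPC.Poly.snd NPC.Poly.id) (NPC.Poly.snd (NPC.Poly.fst NPC.Poly.id))))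
  refine NPC.Poly.pair hZ ?_
  refine NPC.Poly.flatMap (F := fun x c => (best (fun a a' => σ (dif s a a' (z x :: (st x).1)))
    (((st x).2.flatMap fun a => (tys q m).map fun t => t :: a).filter
      fun a => decide (key a = c))).toList) hK ?_
  have hb : NPC.Poly (fun p : α × List ℕ => best
      (fun a a' => σ (dif s a a' (z p.1 :: (st p.1).1)))
      (((st p.1).2.flatMap fun a => (tys q m).map fun t => t :: a).filter
        fun a => decide (key a = p.2))) := by
    refine poly_best (lt := fun (p : α × List ℕ) a a' => σ (dif s a a' (z p.1 :: (st p.1).1)))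
      (NPC.Poly.filter (p := fun (p : α × List ℕ) a => decide (key a = p.2))
        (hC.comp (NPC.Poly.fst NPC.Poly.id)) ?_) ?_
    · exact NPC.Poly.decide_eq (poly_keyv (NPC.Poly.snd NPC.Poly.id)) (NPC.Poly.snd (NPC.Poly.fst NPC.Poly.id))
    · exact hσ.comp (poly_dif (NPC.Poly.fst (NPC.Poly.snd NPC.Poly.id)) (NPC.Poly.snd (NPC.Poly.snd NPC.Poly.id))
        (hZ.comp (NPC.Poly.fst (NPC.Poly.fst NPC.Poly.id))))
  refine (NPC.Poly.optCases (g := fun _ => []) (h := fun _ b => [b]) hb (NPC.Poly.const _)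
    (NPC.Poly.cons (NPC.Poly.snd NPC.Poly.id) (NPC.Poly.const []))).congr fun p => ?_
  cases best (fun a a' => σ (dif s a a' (z p.1 :: (st p.1).1)))
      (((st p.1).2.flatMap fun a => (tys q m).map fun t => t :: a).filter
        fun a => decide (key a = p.2)) <;> rfl

theorem dp_bound (σ : List (List ℤ) → Bool) (K : List (List ℕ)) (Z : List (List ℤ)) :
    (dp q m σ s K Z).2.length ≤ K.length + 1 ∧ ∀ a ∈ (dp q m σ s K Z).2, a.length = Z.length := by
  induction Z with
  | nil => simp [dp]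
  | cons z Z ih =>
      have e : (dp q m σ s K (z :: Z)).2 = K.flatMap fun c =>
          (best (fun a a' => σ (dif s a a' (z :: (dp q m σ s K Z).1)))
            (((dp q m σ s K Z).2.flatMap fun a => (tys q m).map fun t => t :: a).filter
              fun a => decide (key a = c))).toList := rfl
      rw [e]
      refine ⟨(length_flatMap_opt _ _).trans (by omega), ?_⟩
      intro a ha
      rw [List.mem_flatMap] at ha
      obtain ⟨c, -, ha⟩ := ha
      rw [Option.mem_toList] at ha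
      have := best_mem _ a ha
      rw [List.mem_filter, List.mem_flatMap] at this
      obtain ⟨⟨b, hb, h2⟩, -⟩ := this
      rw [List.mem_map] at h2
      obtain ⟨t, -, rfl⟩ := h2
      simp [ih.2 b hb]

theorem poly_dp {σ : List (List ℤ) → Bool} (hσ : NPC.Poly σ) {K : α → List (List ℕ)}
    {Z : α → List (List ℤ)} (hK : NPC.Poly K) (hZ : NPC.Poly Z) :
    NPC.Poly (fun x => dp q m σ s (K x) (Z x)) := by
  unfold dp
  obtain ⟨r₁, hq⟩ := hZ.sz_le
  obtain ⟨r, hr⟩ := hK.sz_le
  obtain ⟨C, hC⟩ : ∃ C, ∀ t : TyK q m, sz t ≤ C := by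
    refine ⟨∑ t : TyK q m, sz t, fun t => ?_⟩
    exact Finset.single_le_sum (f := fun t : TyK q m => sz t) (fun _ _ => Nat.zero_le _)
      (Finset.mem_univ t)
  refine NPC.Poly.foldr (F := fun x z st => dpStep σ s (K x) z st) hZ (NPC.Poly.const _)
    (poly_dpStep hσ (hK.comp (NPC.Poly.fst NPC.Poly.id)) (NPC.Poly.fst (NPC.Poly.snd NPC.Poly.id))
      (NPC.Poly.snd (NPC.Poly.snd NPC.Poly.id)))
    (r₁ + (r + Polynomial.C 1) * (r₁ * Polynomial.C (C + 1) + Polynomial.C 2) + Polynomial.C 2) ?_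
  intro x k hk
  change sz (dp q m σ s (K x) ((Z x).drop k)) ≤ _
  have h1 : sz (dp q m σ s (K x) ((Z x).drop k)) = sz (dp q m σ s (K x) ((Z x).drop k)).1 +
    sz (dp q m σ s (K x) ((Z x).drop k)).2 + 1 := sz_pair _ _
  rw [dp_fst] at h1
  obtain ⟨h2, h3⟩ := dp_bound (q := q) (m := m) (s := s) σ (K x) ((Z x).drop k)
  have h4 := NPC.Poly.sz_drop_le (Z x) k
  have h5 := hq x
  have h6 := hr x
  have h7 := length_lt_sz (K x)
  have h8 := length_lt_sz ((Z x).drop k)
  have h9 := sz_le_length_mul (dp q m σ s (K x) ((Z x).drop k)).2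
    (((Z x).drop k).length * (C + 1) + 1) (by
      intro a ha
      have := sz_le_length_mul a C fun t _ => hC t
      rwa [h3 a ha] at this)
  simp only [Polynomial.eval_add, Polynomial.eval_mul, Polynomial.eval_C]
  have h10 : (dp q m σ s (K x) ((Z x).drop k)).2.length *
      (((Z x).drop k).length * (C + 1) + 1 + 1) ≤
      (Polynomial.eval (sz x) r + 1) * (Polynomial.eval (sz x) r₁ * (C + 1) + 2) := by
    refine Nat.mul_le_mul (by omega) ?_
    have := Nat.mul_le_mul_right (C + 1) (show ((Z x).drop k).length ≤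
      Polynomial.eval (sz x) r₁ by omega)
    omega
  omega

theorem poly_namesIn {a : α → List (TyK q m)} {M : α → List ((TyK q m × ℕ) × Bool)}
    (ha : NPC.Poly a) (hM : NPC.Poly M) :
    NPC.Poly (fun x => (nm (a x)).all fun v => (M x).any fun e => decide (e.1 = v)) := by
  have h1 : NPC.Poly (fun r : (α × (TyK q m × ℕ)) × ((TyK q m × ℕ) × Bool) =>
      decide (r.2.1 = r.1.2)) :=
    NPC.Poly.decide_eq (NPC.Poly.fst (NPC.Poly.snd NPC.Poly.id)) (NPC.Poly.snd (NPC.Poly.fst NPC.Poly.id))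
  have h2 : NPC.Poly (fun r : α × (TyK q m × ℕ) => M r.1) := hM.comp (NPC.Poly.fst NPC.Poly.id)
  have h3 : NPC.Poly (fun r : α × (TyK q m × ℕ) => (M r.1).any fun e => decide (e.1 = r.2)) :=
    NPC.Poly.any (p := fun (r : α × (TyK q m × ℕ)) (e : (TyK q m × ℕ) × Bool) =>
      decide (e.1 = r.2)) h2 h1
  exact NPC.Poly.all (p := fun x (v : TyK q m × ℕ) => (M x).any fun e => decide (e.1 = v))
    (poly_nm ha) h3

theorem poly_closedB {p : TyK q m × ℕ → Lb m × Lb m} (hp : NPC.Poly p)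
    {M : α → List ((TyK q m × ℕ) × Bool)} (hM : NPC.Poly M) :
    NPC.Poly (fun x => (bds (M x)).all fun d => decide (lf p d.2 = bar (rt p d.1))) := by
  have h1 : NPC.Poly (fun r : α × (((TyK q m × ℕ) × Bool) × ((TyK q m × ℕ) × Bool)) =>
      lf p r.2.2) := poly_lf hp (NPC.Poly.snd (NPC.Poly.snd NPC.Poly.id))
  have h2 : NPC.Poly (fun r : α × (((TyK q m × ℕ) × Bool) × ((TyK q m × ℕ) × Bool)) =>
      rt p r.2.1) := poly_rt hp (NPC.Poly.fst (NPC.Poly.snd NPC.Poly.id))
  have h3 : NPC.Poly (fun r : α × (((TyK q m × ℕ) × Bool) × ((TyK q m × ℕ) × Bool)) =>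
      bar (rt p r.2.1)) := poly_bar.comp h2
  have h4 : NPC.Poly (fun r : α × (((TyK q m × ℕ) × Bool) × ((TyK q m × ℕ) × Bool)) =>
      decide (lf p r.2.2 = bar (rt p r.2.1))) := NPC.Poly.decide_eq h1 h3
  exact NPC.Poly.all (p := fun _ (d : ((TyK q m × ℕ) × Bool) × ((TyK q m × ℕ) × Bool)) =>
    decide (lf p d.2 = bar (rt p d.1))) (poly_bds hM) h4

theorem poly_disjB {M N : α → List ((TyK q m × ℕ) × Bool)} (hM : NPC.Poly M) (hN : NPC.Poly N) :
    NPC.Poly (fun x => (bds (M x)).all fun d => !(adj (N x) d.1.1 d.2.1)) := by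
  have h1 : NPC.Poly (fun r : α × (((TyK q m × ℕ) × Bool) × ((TyK q m × ℕ) × Bool)) =>
      N r.1) := hN.comp (NPC.Poly.fst NPC.Poly.id)
  have h2 : NPC.Poly (fun r : α × (((TyK q m × ℕ) × Bool) × ((TyK q m × ℕ) × Bool)) =>
      r.2.1.1) := NPC.Poly.fst (NPC.Poly.fst (NPC.Poly.snd NPC.Poly.id))
  have h3 : NPC.Poly (fun r : α × (((TyK q m × ℕ) × Bool) × ((TyK q m × ℕ) × Bool)) =>
      r.2.2.1) := NPC.Poly.fst (NPC.Poly.snd (NPC.Poly.snd NPC.Poly.id))
  have h4 : NPC.Poly (fun r : α × (((TyK q m × ℕ) × Bool) × ((TyK q m × ℕ) × Bool)) =>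
      !(adj (N r.1) r.2.1.1 r.2.2.1)) := NPC.Poly.not (poly_adj h1 h2 h3)
  exact NPC.Poly.all (p := fun x (d : ((TyK q m × ℕ) × Bool) × ((TyK q m × ℕ) × Bool)) =>
    !(adj (N x) d.1.1 d.2.1)) (poly_bds hM) h4

theorem poly_realB {n : α → ℕ} {a : α → List (TyK q m)} {M : α → Trs q m}
    (hn : NPC.Poly n) (ha : NPC.Poly a) (hM : NPC.Poly M) : NPC.Poly (fun x => realB (n x) (a x) (M x)) := by
  have hi : ∀ i, NPC.Poly (fun x => M x i) := fun i => poly_app hM i
  have e1 : NPC.Poly (fun x => decide (3 ≤ n x) && decide ((a x).length = n x)) :=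
    NPC.Poly.and (NPC.Poly.decide_le (NPC.Poly.const 3) hn) (NPC.Poly.decide_eq (NPC.Poly.length ha) hn)
  have e2 : NPC.Poly (fun x => (List.finRange (q + 1)).all fun i => decide ((M x i).length = n x) &&
    (((nm (a x)).all (fun v => (M x i).any fun e => decide (e.1 = v))) &&
      (bds (M x i)).all (fun d => decide (lf (pK i) d.2 = bar (rt (pK i) d.1))))) := by
    refine poly_all_const (b := fun i x => decide ((M x i).length = n x) &&
      (((nm (a x)).all (fun v => (M x i).any fun e => decide (e.1 = v))) &&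
        (bds (M x i)).all (fun d => decide (lf (pK i) d.2 = bar (rt (pK i) d.1))))) _ fun i => ?_
    exact NPC.Poly.and (NPC.Poly.decide_eq (NPC.Poly.length (hi i)) hn)
      (NPC.Poly.and (poly_namesIn ha (hi i)) (poly_closedB (poly_pK i) (hi i)))
  have e3 : NPC.Poly (fun x => (List.finRange (q + 1)).all fun i => (List.finRange (q + 1)).all fun j =>
      decide (i = j) || (bds (M x i)).all fun d => !(adj (M x j) d.1.1 d.2.1)) := by
    refine poly_all_const (b := fun i x => (List.finRange (q + 1)).all fun j =>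
      decide (i = j) || (bds (M x i)).all fun d => !(adj (M x j) d.1.1 d.2.1)) _ fun i => ?_
    refine poly_all_const (b := fun j x =>
      decide (i = j) || (bds (M x i)).all fun d => !(adj (M x j) d.1.1 d.2.1)) _ fun j => ?_
    exact NPC.Poly.or (NPC.Poly.const _) (poly_disjB (hi i) (hi j))
  exact NPC.Poly.and e1 (NPC.Poly.and e2 e3)

/-- a candidate solution -/
abbrev Cand (q m : ℕ) := List (TyK q m) × Trs q m

theorem poly_outs {σ : List (List ℤ) → Bool} (hσ : NPC.Poly σ) (tb : Tb q m)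
    {Z : α → List (List ℤ)} (hZ : NPC.Poly Z) : NPC.Poly (fun x => outs σ s tb (Z x)) := by
  unfold outs
  refine NPC.Poly.filter (p := fun x (y : Cand q m) => realB (Z x).length y.1 y.2) ?_ ?_
  · refine NPC.Poly.flatMap (F := fun _ a => tb.map fun O => (a, attemptK O a))
      (NPC.Poly.snd (poly_dp hσ (poly_keys hZ) hZ)) ?_
    exact NPC.Poly.map (l := fun _ => tb) (F := fun (p : α × List (TyK q m)) O =>
      (p.2, attemptK O p.2)) (NPC.Poly.const _) (NPC.Poly.pair (NPC.Poly.snd (NPC.Poly.fst NPC.Poly.id))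
        (poly_attemptK (NPC.Poly.snd NPC.Poly.id) (NPC.Poly.snd (NPC.Poly.fst NPC.Poly.id))))
  · exact poly_realB (NPC.Poly.length (hZ.comp (NPC.Poly.fst NPC.Poly.id))) (NPC.Poly.fst (NPC.Poly.snd NPC.Poly.id))
      (NPC.Poly.snd (NPC.Poly.snd NPC.Poly.id))

theorem poly_nrmM {V : Type} [TEnc V] {M : α → List (V × Bool)} (hM : NPC.Poly M) :
    NPC.Poly (fun x => nrmM (M x)) := by
  unfold nrmM
  refine NPC.Poly.ite (p := fun x => (M x).any (fun e => e.2) = true) (NPC.Poly.decide_bool ?_)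
    (poly_rev hM) hM
  exact NPC.Poly.any (p := fun _ (e : V × Bool) => e.2) hM (NPC.Poly.snd (NPC.Poly.snd NPC.Poly.id))

theorem poly_toTour {a : α → List (TyK q m)} {M : α → List ((TyK q m × ℕ) × Bool)}
    (ha : NPC.Poly a) (hM : NPC.Poly M) : NPC.Poly (fun x => toTour (a x) (M x)) :=
  NPC.Poly.map (F := fun x (e : (TyK q m × ℕ) × Bool) => index (nm (a x)) e.1) (poly_nrmM hM)
    (NPC.Poly.index (poly_nm (ha.comp (NPC.Poly.fst NPC.Poly.id))) (NPC.Poly.fst (NPC.Poly.snd NPC.Poly.id)))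

theorem poly_bestZ {σ : List (List ℤ) → Bool} (hσ : NPC.Poly σ) {l : α → List (Cand q m)}
    {Z : α → List (List ℤ)} (hl : NPC.Poly l) (hZ : NPC.Poly Z) :
    NPC.Poly (fun z => best (fun x y : Cand q m => σ (dif s x.1 y.1 (Z z))) (l z)) := by
  have h1 : NPC.Poly (fun p : α × Cand q m × Cand q m => p.2.1.1) := NPC.Poly.fst (NPC.Poly.fst (NPC.Poly.snd NPC.Poly.id))
  have h2 : NPC.Poly (fun p : α × Cand q m × Cand q m => p.2.2.1) := NPC.Poly.fst (NPC.Poly.snd (NPC.Poly.snd NPC.Poly.id))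
  have h3 : NPC.Poly (fun p : α × Cand q m × Cand q m => Z p.1) := hZ.comp (NPC.Poly.fst NPC.Poly.id)
  have h4 : NPC.Poly (fun p : α × Cand q m × Cand q m => dif s p.2.1.1 p.2.2.1 (Z p.1)) :=
    poly_dif h1 h2 h3
  have h5 : NPC.Poly (fun p : α × Cand q m × Cand q m => σ (dif s p.2.1.1 p.2.2.1 (Z p.1))) := hσ.comp h4
  exact poly_best (lt := fun z (x y : Cand q m) => σ (dif s x.1 y.1 (Z z))) hl h5

/-- the output of a candidate -/
noncomputable def outC (x : Cand q m) : List (List ℕ) := List.ofFn fun i => toTour x.1 (x.2 i)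

theorem poly_outC : NPC.Poly (outC : Cand q m → List (List ℕ)) := by
  refine poly_ofFn (g := fun i (x : Cand q m) => toTour x.1 (x.2 i)) fun i => ?_
  exact poly_toTour (NPC.Poly.fst NPC.Poly.id) (poly_app (NPC.Poly.snd NPC.Poly.id) i)

theorem poly_algZ {σ : List (List ℤ) → Bool} (hσ : NPC.Poly σ) (tb : Tb q m)
    {Z : α → List (List ℤ)} (hZ : NPC.Poly Z) : NPC.Poly (fun x => algZ σ s tb (Z x)) := by
  have h1 : NPC.Poly (fun z => best (fun x y : Cand q m => σ (dif s x.1 y.1 (Z z)))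
      (outs σ s tb (Z z))) := poly_bestZ hσ (poly_outs hσ tb hZ) hZ
  have h2 : NPC.Poly (fun p : α × Cand q m => outC p.2) := poly_outC.comp (NPC.Poly.snd NPC.Poly.id)
  exact NPC.Poly.optMap (f := fun _ (x : Cand q m) => outC x) h1 h2

end alg

end Pool.Agent.KS6_7.KP
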