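import Pool.Agent.KS6_7.KP.Defs
import Pool.Agent.KS6_7.KP.Geo
import Pool.Agent.KS6_7.KP.Poly
import Pool.Graph.R_seed8.H670R2.PspMain
import Pool.Graph.R_pool_sql_team_39128cda.H.MP_31f6f1_lc.B

/-!
# Max-k-PSP under a polyhedral gauge is solvable in polynomial time
-/

set_option autoImplicit false

namespace Pool.Agent.KS6_7.KP

open Pool.Agent.NPC Pool.Agent.NPC.H670R2
open Pool.Agent.H670R2.PSP (pt steps edges PolyTimeSigns tl hval ipts_spec signs_rat)
open scoped Pointwise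

variable {m s q : ℕ}

/-- the algorithm on bit strings -/
noncomputable def algBits (σ : List (List ℤ) → Bool) (s : ℕ) (tb : Tb q m) (x : List Bool) :
    Option (List (List ℕ)) :=
  (unbits (List (List ℚ)) x).bind fun P => algZ σ s tb (ipts P)

theorem poly_algBits {σ : List (List ℤ) → Bool} (hσ : NPC.Poly σ) (tb : Tb q m) :
    NPC.Poly (algBits σ s tb) :=
  NPC.Poly.optBind (f := fun _ P => algZ σ s tb (ipts P)) poly_unbits
    (poly_algZ hσ tb (poly_ipts (NPC.Poly.snd NPC.Poly.id)))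

/-- The core: distances given by a maximum of finitely many linear functionals. -/
theorem solvable_core {A : Fin m → Fin s → ℝ} {nrm : (Fin s → ℝ) → ℝ} (hA : PolyTimeSigns A)
    (h1 : ∀ (l : Fin m) x, ∑ k, A l k * x k ≤ nrm x)
    (h2 : ∀ x, ∃ l : Fin m, ∑ k, A l k * x k = nrm x) (q : ℕ) : PolyTimeSolvableK (q + 1) nrm := by
  obtain ⟨F, hF, hFs⟩ := hA
  have hσP : NPC.Poly (fun w : List (List ℤ) => decide (F (bits w) = [true])) :=
    NPC.Poly.decide_eq ((poly_raw hF).comp poly_bits) (NPC.Poly.const _)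
  have hσ : ∀ z : Fin m → Fin s → ℤ,
      (fun w : List (List ℤ) => decide (F (bits w) = [true]))
        (List.ofFn fun i => List.ofFn (z i)) = true ↔
      0 < ∑ i, ∑ k, A i k * (z i k : ℝ) := by
    intro z
    simp only [decide_eq_true_eq]
    exact hFs z
  obtain ⟨tb, htb⟩ := exists_tableK q m
  refine ⟨fun x => bits (algBits (fun w => decide (F (bits w) = [true])) s tb x),
    polyTime_bits (poly_algBits hσP tb), fun P => ⟨_, rfl, ?_⟩⟩
  obtain ⟨p1, p2, p3⟩ := ipts_spec P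
  have hspec := algZ_spec (A := A) (nrm := nrm) (X := pt P)
    (σ := fun w => decide (F (bits w) = [true])) hσ
    (fun l x => by simpa [hval] using h1 l x) (fun x => by simpa [hval] using h2 x) (tb := tb) htb
    (D := (cden (P.map List.ofFn) : ℝ)) (by exact_mod_cast p1)
    (Z := ipts (P.map List.ofFn)) (fun i hi k => p3 i (by rwa [p2] at hi) k)
  have e : algBits (fun w => decide (F (bits w) = [true])) s tb (bits (P.map List.ofFn)) =
      algZ (fun w => decide (F (bits w) = [true])) s tb (ipts (P.map List.ofFn)) := by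
    unfold algBits
    rw [unbits_bits]
    rfl
  rw [e]
  rw [p2] at hspec
  have hlen : ∀ τ : Fin (q + 1) → List ℕ, lenK nrm P (List.ofFn τ) = ∑ i, tl nrm (pt P) (τ i) := by
    intro τ
    unfold lenK tl
    rw [List.map_ofFn, List.sum_ofFn]
    rfl
  cases ho : algZ (fun w => decide (F (bits w) = [true])) s tb (ipts (P.map List.ofFn)) with
  | none =>
      rw [ho] at hspec
      intro τs hτs
      obtain ⟨τ, rfl, hτ⟩ := feasibleK_iff.1 hτs
      exact hspec τ hτ
  | some o =>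
      rw [ho] at hspec
      obtain ⟨ρ, rfl, hρ, hmax⟩ := hspec
      refine ⟨feasibleK_iff.2 ⟨ρ, rfl, hρ⟩, ?_⟩
      intro τs hτs
      obtain ⟨τ, rfl, hτ⟩ := feasibleK_iff.1 hτs
      rw [hlen, hlen]
      exact hmax τ hτ

/-! ### Adding a zero row -/

theorem signs_cons {A : Fin m → Fin s → ℝ} (hA : PolyTimeSigns A) :
    PolyTimeSigns (Fin.cons (fun _ => (0 : ℝ)) A : Fin (m + 1) → Fin s → ℝ) := by
  obtain ⟨F, hF, hFs⟩ := hA
  refine ⟨fun x => [((unbits (List (List ℤ)) x).map fun w =>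
    decide (F (bits w.tail) = [true])).getD false], polyTime_of_poly ?_, ?_⟩
  · refine (NPC.Poly.optCases (g := fun _ => false) (h := fun _ (w : List (List ℤ)) =>
      decide (F (bits w.tail) = [true]))
      (poly_unbits (α := List (List ℤ))) (NPC.Poly.const _)
      (NPC.Poly.decide_eq ((poly_raw hF).comp (poly_bits.comp (NPC.Poly.tail (NPC.Poly.snd NPC.Poly.id))))
        (NPC.Poly.const _))).congr fun x => ?_
    cases unbits (List (List ℤ)) x <;> rfl
  · intro z
    simp only [unbits_bits, Option.map_some, Option.getD_some, List.cons.injEq,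
      decide_eq_true_eq, and_true]
    rw [List.ofFn_succ, List.tail_cons, Fin.sum_univ_succ]
    have := hFs fun i => z i.succ
    rw [this]
    simp

/-! ### The two kinds of polyhedral gauges -/

/-- The gauge of `{x | A x ≤ 1}` is `max (0, max_i A_i x)`. -/
theorem gauge_polyhedron (A : Fin m → Fin s → ℝ) :
    (∀ (l : Fin (m + 1)) x, ∑ k, (Fin.cons (fun _ => (0 : ℝ)) A : Fin (m + 1) → Fin s → ℝ) l k * x k ≤
      gauge {x : Fin s → ℝ | ∀ i, ∑ k, A i k * x k ≤ 1} x) ∧
    ∀ x, ∃ l : Fin (m + 1), ∑ k, (Fin.cons (fun _ => (0 : ℝ)) A : Fin (m + 1) → Fin s → ℝ) l k * x k =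
      gauge {x : Fin s → ℝ | ∀ i, ∑ k, A i k * x k ≤ 1} x := by
  set B : Set (Fin s → ℝ) := {x | ∀ i, ∑ k, A i k * x k ≤ 1} with hB
  set A' : Fin (m + 1) → Fin s → ℝ := Fin.cons (fun _ => (0 : ℝ)) A with hA'
  have hsm : ∀ (a : Fin s → ℝ) (r : ℝ) (x : Fin s → ℝ), ∑ k, a k * (r • x) k = r * ∑ k, a k * x k := by
    intro a r x
    rw [Finset.mul_sum]
    refine Finset.sum_congr rfl fun k _ => ?_
    rw [Pi.smul_apply, smul_eq_mul]
    ring
  have hmem : ∀ (x : Fin s → ℝ) (r : ℝ), 0 < r → (∀ i, ∑ k, A i k * x k ≤ r) → x ∈ r • B := by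
    intro x r hr hx
    rw [Set.mem_smul_set_iff_inv_smul_mem₀ hr.ne', hB]
    intro i
    rw [hsm, inv_mul_le_iff₀ hr, mul_one]
    exact hx i
  have hmem' : ∀ (x : Fin s → ℝ) (r : ℝ), 0 < r → x ∈ r • B → ∀ i, ∑ k, A i k * x k ≤ r := by
    rintro x r hr ⟨y, hy, rfl⟩ i
    have := hy i
    simp only
    rw [hsm]
    nlinarith
  have hle : ∀ (l : Fin (m + 1)) x, ∑ k, A' l k * x k ≤ gauge B x := by
    intro l x
    refine Fin.cases ?_ (fun i => ?_) l
    · simp only [hA', Fin.cons_zero, zero_mul, Finset.sum_const_zero]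
      exact gauge_nonneg x
    · simp only [hA', Fin.cons_succ]
      rw [gauge_def]
      refine le_csInf ?_ ?_
      · obtain ⟨M, hM⟩ := (Set.finite_range fun i => ∑ k, A i k * x k).bddAbove
        have hpos : (0 : ℝ) < max M 1 := lt_of_lt_of_le one_pos (le_max_right _ _)
        exact ⟨max M 1, hpos, hmem x _ hpos fun i => (hM (Set.mem_range_self i)).trans (le_max_left _ _)⟩
      · rintro r ⟨hr, hx⟩
        exact hmem' x r hr hx i
  refine ⟨hle, fun x => ?_⟩
  obtain ⟨l₀, hl₀⟩ := Finite.exists_max fun l : Fin (m + 1) => ∑ k, A' l k * x k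
  refine ⟨l₀, le_antisymm (hle l₀ x) ?_⟩
  have h0 : 0 ≤ ∑ k, A' l₀ k * x k := by
    have := hl₀ 0
    simpa [hA'] using this
  refine le_of_forall_pos_le_add fun ε hε => ?_
  refine gauge_le_of_mem (by linarith) (hmem x _ (by linarith) fun i => ?_)
  have := hl₀ i.succ
  simp only [hA', Fin.cons_succ] at this h0 ⊢
  linarith

theorem solvable_polyhedron {A : Fin m → Fin s → ℝ} (hA : PolyTimeSigns A) (q : ℕ) :
    PolyTimeSolvableK (q + 1) (gauge {x : Fin s → ℝ | ∀ i, ∑ k, A i k * x k ≤ 1}) :=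
  solvable_core (signs_cons hA) (gauge_polyhedron A).1 (gauge_polyhedron A).2 q

theorem solvable_hull (V : Finset (Fin s → ℚ)) {B : Set (Fin s → ℝ)}
    (hB : B = convexHull ℝ ((fun (v : Fin s → ℚ) k => (v k : ℝ)) '' V)) (h : 0 ∈ interior B) (q : ℕ) :
    PolyTimeSolvableK (q + 1) (gauge B) := by
  obtain ⟨A, hA⟩ := Pool.Agent.H.MP_31f6f1_lc.poly V hB h
  set e := A.equivFin with he
  have hsig := signs_rat (fun (i : Fin A.card) k => ((e.symm i : Fin s → ℚ) k))
  refine solvable_core hsig ?_ ?_ q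
  · intro l x
    exact (hA x).1 _ (e.symm l).2
  · intro x
    obtain ⟨a, ha, hle⟩ := (hA x).2
    refine ⟨e ⟨a, ha⟩, ?_⟩
    simp only [Equiv.symm_apply_apply]
    exact le_antisymm ((hA x).1 a ha) hle

end Pool.Agent.KS6_7.KP
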