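import Pool.Agent.KS6_7.KP.Fix

/-!
# The insertion theorem for several tours
-/

set_option autoImplicit false

namespace Pool.Agent.KS6_7.KP

open Pool.Agent.H670R2.PSP

variable {E V L : Type}

/-- adjacency in one of several tours -/
def adjs [DecidableEq V] (Ns : List (List (V × Bool))) (u v : V) : Bool := Ns.any fun N => adj N u v

theorem adjs_iff [DecidableEq V] {Ns : List (List (V × Bool))} {u v : V} :
    adjs Ns u v = true ↔ ∃ N ∈ Ns, ∃ d ∈ bds N, edge d = s(u, v) := by
  unfold adjs
  rw [List.any_eq_true]
  simp only [adj_iff]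

theorem adjs_symm [DecidableEq V] (Ns : List (List (V × Bool))) (u v : V) :
    adjs Ns u v = adjs Ns v u := by
  unfold adjs
  simp only [adj_symm _ u v]

theorem adjs_deg [DecidableEq V] {Ns : List (List (V × Bool))} (hN : ∀ N ∈ Ns, (N.map Prod.fst).Nodup)
    {vs : List V} (hvs : vs.Nodup) (u : V) : vs.countP (fun v => adjs Ns u v) ≤ 2 * Ns.length := by
  induction Ns with
  | nil =>
      have : vs.countP (fun v => adjs [] u v) = 0 := by
        rw [List.countP_eq_zero]
        intro v _ h
        simp [adjs] at h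
      omega
  | cons N Ns ih =>
      have h1 := ih fun N' h => hN N' (by simp [h])
      have h2 := adj_deg (hN N (by simp)) hvs u
      have h3 := countP_or_le (fun v => adj N u v) (fun v => adjs Ns u v) vs
      have h4 : vs.countP (fun v => adjs (N :: Ns) u v)
          = vs.countP (fun v => adj N u v || adjs Ns u v) := by
        congr 1
      rw [h4, List.length_cons]
      omega

section

variable [DecidableEq V] [DecidableEq L]

/-- frequent labels -/
def frqG (F : ℕ) (p : V → L × L) (O : List (V × Bool)) (a : L) : Bool :=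
  decide (F ≤ cnt p a (O.map Prod.fst))

/-- allowed boundaries -/
def alwG (F : ℕ) (p : V → L × L) (bar : L → L) (O : List (V × Bool)) (d : (V × Bool) × (V × Bool)) :
    Bool :=
  decide (lf p d.2 = bar (rt p d.1)) && (frqG F p O (rt p d.1) || adj O d.1.1 d.2.1)

/-- the extension of a tour -/
def ext1G (F : ℕ) (p : V → L × L) (bar : L → L) (O : List (V × Bool)) (U : List V) : List (V × Bool) :=
  extTour p (alwG F p bar O) (frqG F p O) O U

/-- repairing a tour -/
def fix1G (F : ℕ) (p : V → L × L) (bar : L → L) (O M : List (V × Bool)) (Ns : List (List (V × Bool))) :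
    List (V × Bool) :=
  fixTour (alwG F p bar O) (adjs Ns) M

variable {F : ℕ} {p : V → L × L} {bar : L → L}

theorem frqG_bar (hbar : ∀ a, bar (bar a) = a) {O : List (V × Bool)} (hO : Closed p bar O) {a : L}
    (h : frqG F p O a = true) : frqG F p O (bar a) = true := by
  unfold frqG at h ⊢
  rwa [cnt_bar hbar hO]

theorem alwG_sw (hbar : ∀ a, bar (bar a) = a) {O : List (V × Bool)} (hO : Closed p bar O)
    (d : (V × Bool) × (V × Bool)) (h : alwG F p bar O d = true) : alwG F p bar O (sw d) = true := by
  unfold alwG at h ⊢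
  simp only [Bool.and_eq_true, Bool.or_eq_true, decide_eq_true_eq] at h ⊢
  obtain ⟨h1, h2⟩ := h
  refine ⟨?_, ?_⟩
  · simp only [sw, lf_flip, rt_flip]
    rw [h1, hbar]
  · rcases h2 with h2 | h2
    · left
      simp only [sw, rt_flip]
      rw [h1]
      exact frqG_bar hbar hO h2
    · right
      rw [adj_symm]
      exact h2

theorem alwG_comp {O : List (V × Bool)} (d : (V × Bool) × (V × Bool))
    (h : alwG F p bar O d = true) : lf p d.2 = bar (rt p d.1) := by
  unfold alwG at h
  simp only [Bool.and_eq_true, decide_eq_true_eq] at h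
  exact h.1

theorem alwG_frq {O : List (V × Bool)} (d : (V × Bool) × (V × Bool))
    (h : lf p d.2 = bar (rt p d.1)) (h' : frqG F p O (rt p d.1) = true) : alwG F p bar O d = true := by
  unfold alwG
  simp only [Bool.and_eq_true, Bool.or_eq_true, decide_eq_true_eq]
  exact ⟨h, Or.inl h'⟩

theorem alwG_self {O : List (V × Bool)} (hO : Closed p bar O) (d : (V × Bool) × (V × Bool))
    (h : d ∈ bds O) : alwG F p bar O d = true := by
  unfold alwG
  simp only [Bool.and_eq_true, Bool.or_eq_true, decide_eq_true_eq]
  exact ⟨hO d h, Or.inr (adj_iff.2 ⟨d, h, rfl⟩)⟩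

theorem alwG_rare {O : List (V × Bool)} {d : (V × Bool) × (V × Bool)}
    (h : alwG F p bar O d = true) (h' : frqG F p O (rt p d.1) = false) :
    ∃ e ∈ bds O, edge e = edge d := by
  unfold alwG at h
  simp only [Bool.and_eq_true, Bool.or_eq_true, decide_eq_true_eq] at h
  rcases h.2 with h2 | h2
  · rw [h2] at h'
    exact absurd h' (by simp)
  · exact adj_iff.1 h2

theorem ext1G_spec (hF : 1 ≤ F) (hbar : ∀ a, bar (bar a) = a) (hne : ∀ a, bar a ≠ a) {O : List (V × Bool)}
    {U : List V} (hO : Closed p bar O)
    (hbal : ∀ a, cnt p a (O.map Prod.fst ++ U) = cnt p (bar a) (O.map Prod.fst ++ U))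
    (hfU : ∀ w ∈ U, frqG F p O (p w).1 = true ∧ frqG F p O (p w).2 = true) :
    ((ext1G F p bar O U).map Prod.fst).Perm (O.map Prod.fst ++ U) ∧
    (∀ d ∈ bds (ext1G F p bar O U), alwG F p bar O d = true) := by
  unfold ext1G
  refine extTour_spec hbar hne (alwG_sw hbar hO) alwG_comp alwG_frq
    (fun a => frqG_bar hbar hO) (alwG_self hO) hbal hfU ?_
  intro a ha
  unfold frqG at ha
  rw [decide_eq_true_iff] at ha
  omega

theorem fix1G_spec (hbar : ∀ a, bar (bar a) = a) (hne : ∀ a, bar a ≠ a) {O M : List (V × Bool)}
    {Ns : List (List (V × Bool))} (hF : 10 * Ns.length + 3 ≤ F)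
    {ws : List V} (hO : Closed p bar O) (hOM : ∀ a, cnt p a (O.map Prod.fst) ≤ cnt p a ws)
    (hMU : (M.map Prod.fst).Perm ws)
    (hM : ∀ d ∈ bds M, alwG F p bar O d = true) (hMn : (M.map Prod.fst).Nodup)
    (hNn : ∀ N ∈ Ns, (N.map Prod.fst).Nodup) :
    ((fix1G F p bar O M Ns).map Prod.fst).Perm (M.map Prod.fst) ∧
    (∀ d ∈ bds (fix1G F p bar O M Ns), alwG F p bar O d = true) ∧
    (∀ d ∈ bds (fix1G F p bar O M Ns), adjs Ns d.1.1 d.2.1 = true → frqG F p O (rt p d.1) = false) ∧
    (∀ d ∈ bds (fix1G F p bar O M Ns), adjs Ns d.1.1 d.2.1 = true → ∃ d₀ ∈ bds M, edge d = edge d₀) := by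
  unfold fix1G
  obtain ⟨h1, h2, h3, h4⟩ := fixTour_specG (p := p) (bar := bar) (g := 2 * Ns.length) hbar hne
    (P := alwG F p bar O) (G := adjs Ns) (freq := frqG F p O) (alwG_sw hbar hO) alwG_comp alwG_frq
    (fun a => frqG_bar hbar hO) (adjs_symm Ns) (M := M) (adjs_deg hNn hMn) (by
      intro a ha
      unfold frqG at ha
      rw [decide_eq_true_iff] at ha
      have := hOM a
      rw [cnt_perm a hMU]
      omega) hM
  refine ⟨h1, h2, h3, ?_⟩
  intro d hd hG
  obtain ⟨d₀, hd₀, h⟩ := h4 d hd hG
  refine ⟨d₀, hd₀, ?_⟩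
  rcases h with rfl | rfl
  · rfl
  · exact edge_sw d₀

variable {κ : ℕ}

/-- a realisation: closed labelled tours on `vs` without common edges -/
def RealnK (p : Fin κ → V → L × L) (bar : L → L) (vs : List V) (M : Fin κ → List (V × Bool)) : Prop :=
  (∀ i, ((M i).map Prod.fst).Perm vs) ∧ (∀ i, Closed (p i) bar (M i)) ∧
    ∀ i j, i ≠ j → ∀ d ∈ bds (M i), ∀ d' ∈ bds (M j), edge d ≠ edge d'

/-- the other tours -/
def others (M : Fin κ → List (V × Bool)) (i : Fin κ) : List (List (V × Bool)) :=
  ((List.finRange κ).filter fun j => decide (j ≠ i)).map M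

theorem mem_others {M : Fin κ → List (V × Bool)} {i : Fin κ} {N : List (V × Bool)} :
    N ∈ others M i ↔ ∃ j, j ≠ i ∧ M j = N := by
  unfold others
  simp only [List.mem_map, List.mem_filter, List.mem_finRange, true_and, decide_eq_true_eq]

theorem others_length (M : Fin κ → List (V × Bool)) (i : Fin κ) : (others M i).length ≤ κ := by
  unfold others
  rw [List.length_map]
  refine (List.length_filter_le _ _).trans ?_
  rw [List.length_finRange]

/-- repairing the `i`-th tour -/
def stepK (F : ℕ) (p : Fin κ → V → L × L) (bar : L → L) (O M : Fin κ → List (V × Bool)) (i : Fin κ) :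
    Fin κ → List (V × Bool) :=
  Function.update M i (fix1G F (p i) bar (O i) (M i) (others M i))

/-- the extended tours -/
def realizeK (F : ℕ) (p : Fin κ → V → L × L) (bar : L → L) (O : Fin κ → List (V × Bool)) (U : List V) :
    Fin κ → List (V × Bool) :=
  (List.finRange κ).foldl (fun M i => stepK F p bar O M i) (fun i => ext1G F (p i) bar (O i) U)

/-- **Insertion theorem.** -/
theorem realizeK_spec {p : Fin κ → V → L × L} (hF : 10 * κ + 3 ≤ F) (hbar : ∀ a, bar (bar a) = a)
    (hne : ∀ a, bar a ≠ a) {vs U : List V} {O : Fin κ → List (V × Bool)} (hO : RealnK p bar vs O)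
    (hnd : (vs ++ U).Nodup)
    (hbal : ∀ i a, cnt (p i) a (vs ++ U) = cnt (p i) (bar a) (vs ++ U))
    (hfr : ∀ w ∈ U, F ≤ vs.countP fun v => decide (∀ i, p i v = p i w)) :
    RealnK p bar (vs ++ U) (realizeK F p bar O U) := by
  obtain ⟨o1, o2, o3⟩ := hO
  have hc : ∀ i, ∀ w ∈ U, frqG F (p i) (O i) (p i w).1 = true ∧ frqG F (p i) (O i) (p i w).2 = true := by
    intro i w hw
    have h := hfr w hw
    unfold frqG
    rw [decide_eq_true_iff, decide_eq_true_iff, cnt_perm _ (o1 i), cnt_perm _ (o1 i)]
    have h1 : vs.countP (fun v => decide (∀ i, p i v = p i w)) ≤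
        vs.countP (fun v => decide ((p i v).1 = (p i w).1)) :=
      List.countP_mono_left fun v _ h => by
        simp only [decide_eq_true_eq] at h ⊢
        rw [h i]
    have h2 : vs.countP (fun v => decide (∀ i, p i v = p i w)) ≤
        vs.countP (fun v => decide ((p i v).2 = (p i w).2)) :=
      List.countP_mono_left fun v _ h => by
        simp only [decide_eq_true_eq] at h ⊢
        rw [h i]
    unfold cnt
    constructor <;> omega
  have hp : ∀ i, ((O i).map Prod.fst ++ U).Perm (vs ++ U) := fun i => (o1 i).append_right _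
  have hcn : ∀ i a, cnt (p i) a ((O i).map Prod.fst) ≤ cnt (p i) a (vs ++ U) := by
    intro i a
    rw [cnt_perm _ (o1 i), cnt_append]
    omega
  -- the invariant
  have inv : ∀ (l : List (Fin κ)) (S : Set (Fin κ)) (M : Fin κ → List (V × Bool)),
      (∀ i, ((M i).map Prod.fst).Perm (vs ++ U)) → (∀ i, ∀ d ∈ bds (M i), alwG F (p i) bar (O i) d = true) →
      (∀ i ∈ S, ∀ j, j ≠ i → ∀ d ∈ bds (M i), ∀ d' ∈ bds (M j), edge d = edge d' →
        frqG F (p i) (O i) (rt (p i) d.1) = false) →
      (∀ i, i ∈ S ∨ i ∈ l) →
      RealnK p bar (vs ++ U) (l.foldl (fun M i => stepK F p bar O M i) M) := by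
    intro l
    induction l with
    | nil =>
        intro S M h1 h2 h3 h4
        refine ⟨h1, fun i d hd => alwG_comp d (h2 i d hd), ?_⟩
        intro i j hij d hd d' hd' he
        have hi : i ∈ S := by simpa using h4 i
        have hj : j ∈ S := by simpa using h4 j
        obtain ⟨b, hb, hb'⟩ := alwG_rare (h2 i d hd) (h3 i hi j (Ne.symm hij) d hd d' hd' he)
        obtain ⟨c, hc, hc'⟩ := alwG_rare (h2 j d' hd') (h3 j hj i hij d' hd' d hd he.symm)
        exact o3 i j hij b hb c hc (by rw [hb', hc', he])
    | cons i l ih =>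
        intro S M h1 h2 h3 h4
        rw [List.foldl_cons]
        have hnodup : ∀ j, ((M j).map Prod.fst).Nodup := fun j => (h1 j).symm.nodup hnd
        obtain ⟨f1, f2, f3, f4⟩ := fix1G_spec (F := F) hbar hne (Ns := others M i)
          (by have := others_length M i; omega) (o2 i) (hcn i) (h1 i) (h2 i) (hnodup i) (by
            intro N hN
            obtain ⟨j, -, rfl⟩ := mem_others.1 hN
            exact hnodup j)
        set X := fix1G F (p i) bar (O i) (M i) (others M i) with hX
        have eX : (stepK F p bar O M i) i = X := by unfold stepK; rw [Function.update_self]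
        have eN : ∀ j, j ≠ i → (stepK F p bar O M i) j = M j := fun j hj => by
          unfold stepK; rw [Function.update_of_ne hj]
        refine ih (insert i S) _ ?_ ?_ ?_ ?_
        · intro j
          by_cases hj : j = i
          · subst hj
            rw [eX]
            exact f1.trans (h1 j)
          · rw [eN j hj]
            exact h1 j
        · intro j
          by_cases hj : j = i
          · subst hj
            rw [eX]
            exact f2
          · rw [eN j hj]
            exact h2 j
        · intro a ha j hja d hd d' hd' he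
          by_cases hai : a = i
          · subst hai
            rw [eX] at hd
            rw [eN j hja] at hd'
            refine f3 d hd (adjs_iff.2 ⟨M j, mem_others.2 ⟨j, hja, rfl⟩, d', hd', ?_⟩)
            rw [← he]
            rfl
          · have haS : a ∈ S := by
              rcases Set.mem_insert_iff.1 ha with h | h
              · exact absurd h hai
              · exact h
            rw [eN a hai] at hd
            by_cases hji : j = i
            · subst hji
              rw [eX] at hd'
              obtain ⟨d₀, hd₀, h0⟩ := f4 d' hd' (adjs_iff.2 ⟨M a, mem_others.2 ⟨a, hai, rfl⟩, d, hd, by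
                rw [he]
                rfl⟩)
              exact h3 a haS j hja d hd d₀ hd₀ (he.trans h0)
            · rw [eN j hji] at hd'
              exact h3 a haS j hja d hd d' hd' he
        · intro j
          rcases h4 j with h | h
          · exact Or.inl (Set.mem_insert_of_mem _ h)
          · rcases List.mem_cons.1 h with rfl | h
            · exact Or.inl (Set.mem_insert _ _)
            · exact Or.inr h
  refine inv (List.finRange κ) ∅ _ ?_ ?_ ?_ ?_
  · intro i
    exact (ext1G_spec (F := F) (by omega) hbar hne (o2 i) (U := U) (fun a => by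
      rw [cnt_perm _ (hp i), cnt_perm _ (hp i)]; exact hbal i a) (hc i)).1.trans (hp i)
  · intro i
    exact (ext1G_spec (F := F) (by omega) hbar hne (o2 i) (U := U) (fun a => by
      rw [cnt_perm _ (hp i), cnt_perm _ (hp i)]; exact hbal i a) (hc i)).2
  · intro i hi
    exact absurd hi (Set.notMem_empty i)
  · intro i
    exact Or.inr (List.mem_finRange i)

end

end Pool.Agent.KS6_7.KP
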