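import Pool.Graph.R_seed8.H670R2.PspAlg
import Pool.Agent.KS6_7.KP.Real

/-!
# The finite table of realisations, for several tours
-/

set_option autoImplicit false

namespace Pool.Agent.KS6_7.KP

open Pool.Agent.H670R2.PSP

theorem wqo_vecG (T : Type) [Finite T] (F : ℕ) : WellQuasiOrdered fun b c : T → ℕ =>
    (∀ t, b t ≤ c t) ∧ ∀ t, b t < F → c t = b t := by
  intro f
  have h1 : WellQuasiOrdered (fun x y : (T → ℕ) => x ≤ y) :=
    (inferInstance : WellQuasiOrderedLE (T → ℕ)).wqo
  have h2 : WellQuasiOrdered (fun x y : (T → Fin (F + 1)) => x = y) :=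
    Finite.wellQuasiOrdered _
  obtain ⟨m, n, hmn, h3, h4⟩ := (h1.prod h2) fun n => (f n, fun t => ⟨min (f n t) F, by omega⟩)
  refine ⟨m, n, hmn, fun t => h3 t, fun t ht => ?_⟩
  have := congrFun h4 t
  simp only [Fin.mk.injEq] at this
  omega

section table

variable {m q : ℕ}

/-- types of vertices: the labels of the incoming and of the outgoing step in each of the `q + 1`
tours -/
abbrev TyK (q m : ℕ) := Fin (q + 1) → Fin m × Fin m

/-- labels in the `i`-th tour: the left port has a negative label, the right port a positive one -/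
def pK (i : Fin (q + 1)) (v : TyK q m × ℕ) : Lb m × Lb m := (((v.1 i).1, false), ((v.1 i).2, true))

/-- labelled tours, one for each index -/
abbrev Trs (q m : ℕ) := Fin (q + 1) → List ((TyK q m × ℕ) × Bool)

/-- the bound for frequent labels -/
def FK (q : ℕ) : ℕ := 10 * (q + 1) + 3

theorem RealnK.congr {κ : ℕ} {V L : Type} {r : Fin κ → V → L × L} {bar : L → L} {vs ws : List V}
    {M : Fin κ → List (V × Bool)} (h : RealnK r bar vs M) (hp : vs.Perm ws) :
    RealnK r bar ws M := by
  obtain ⟨h1, h2, h3⟩ := h
  exact ⟨fun i => (h1 i).trans hp, h2, h3⟩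

/-- new vertices -/
def extrasK (O : List ((TyK q m × ℕ) × Bool)) (a : List (TyK q m)) : List (TyK q m × ℕ) :=
  (nm a).filter fun v => !(O.any fun e => decide (e.1 = v))

/-- the tours obtained from a table entry for an assignment -/
def attemptK (O : Trs q m) (a : List (TyK q m)) : Trs q m :=
  realizeK (FK q) pK bar O (extrasK (O 0) a)

theorem exists_tableK (q m : ℕ) :
    ∃ tb : List (Trs q m), ∀ (a a' : List (TyK q m)) (M : Trs q m),
        RealnK pK bar (nm a) M → (∀ t, cn t a' = cn t a) →
        ∃ O ∈ tb, RealnK pK bar (nm a') (attemptK O a') := by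
  classical
  obtain ⟨s, hs, hs'⟩ := exists_basis (wqo_vecG (TyK q m) (FK q)) {c | ∃ a : List (TyK q m),
    (∀ t, cn t a = c t) ∧ ∃ M : Trs q m, RealnK pK bar (nm a) M}
  choose! g hg using hs
  choose! h1 h2 using fun c hc => (hg c hc).2
  refine ⟨s.toList.map fun c => h1 c, ?_⟩
  intro a a' M hR hcount
  obtain ⟨c, hc, hle, heq⟩ := hs' (fun t => cn t a) ⟨a, fun t => rfl, M, hR⟩
  refine ⟨h1 c, List.mem_map.2 ⟨c, by simpa using hc, rfl⟩, ?_⟩
  have hreal := h2 c hc
  have hgc := (hg c hc).1
  set b := g c with hb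
  have hex : extrasK (h1 c 0) a' = (nm a').filter fun v => decide (v ∉ nm b) := by
    unfold extrasK
    refine List.filter_congr fun v _ => ?_
    rw [Bool.eq_iff_iff, Bool.not_eq_true', ← Bool.not_eq_true, List.any_eq_true,
      decide_eq_true_iff, ← (hreal.1 0).mem_iff, List.mem_map]
    simp only [decide_eq_true_eq]
  have hperm : (nm b ++ extrasK (h1 c 0) a').Perm (nm a') := by
    rw [hex]
    have hsp := nm_split (b := b) (c := a') fun t => by
      have h3 := hgc t
      have h4 := hcount t
      have h5 := hle t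
      omega
    refine (List.Perm.of_eq ?_).trans hsp
    congr 1
  have hperm2 : (nm b ++ extrasK (h1 c 0) a').Perm (nm a) := hperm.trans (nm_perm hcount)
  refine RealnK.congr ?_ hperm
  unfold attemptK
  refine realizeK_spec (F := FK q) (by unfold FK; omega) bar_bar bar_ne hreal
    (hperm.symm.nodup (nodup_nm _)) ?_ ?_
  · intro i x
    rw [cnt_perm _ hperm2, cnt_perm _ hperm2, ← cnt_perm _ (hR.1 i), ← cnt_perm _ (hR.1 i)]
    exact (cnt_bar bar_bar (hR.2.1 i) x).symm
  · intro w hw
    rw [hex, List.mem_filter, decide_eq_true_iff, mem_nm, mem_nm, hcount] at hw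
    have e1 : (nm b).countP (fun v => decide (∀ i : Fin (q + 1), pK i v = pK i w)) =
        cn w.1 b := by
      rw [← countP_nm]
      refine List.countP_congr fun v _ => ?_
      rw [decide_eq_true_iff, decide_eq_true_iff]
      refine ⟨fun h => funext fun i => ?_, fun h i => by unfold pK; rw [h]⟩
      have := h i
      unfold pK at this
      simp only [Prod.mk.injEq, and_true] at this
      exact Prod.ext this.1 this.2
    rw [e1, hgc]
    by_contra hlt
    have := heq w.1 (by omega)
    have := hgc w.1
    omega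

end table

end Pool.Agent.KS6_7.KP
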